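import Pool.Agent.helper15.Crossing.Defs

/-!
# Every finite graph has a drawing with finitely many crossings

We put the vertices on a parabola and draw the edges as segments.
-/

set_option autoImplicit false

namespace Pool.Agent.helper15.Crossing

open Classical unitInterval

/-- The point of the parabola with abscissa `x`. -/
noncomputable def para (x : ℝ) : Plane := WithLp.toLp 2 ![x, x ^ 2]

theorem para_zero (x : ℝ) : para x 0 = x := by simp [para]
theorem para_one (x : ℝ) : para x 1 = x ^ 2 := by simp [para]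

/-- The segment between two points of the parabola. -/
noncomputable def chord (a b : ℝ) : C(I, Plane) :=
  ⟨fun t => (1 - (t : ℝ)) • para a + (t : ℝ) • para b, by fun_prop⟩

theorem chord_x (a b : ℝ) (t : I) : chord a b t 0 = (1 - (t : ℝ)) * a + t * b := by
  simp [chord, para_zero]

theorem chord_y (a b : ℝ) (t : I) : chord a b t 1 = (1 - (t : ℝ)) * a ^ 2 + t * b ^ 2 := by
  simp [chord, para_one]

theorem chord_line (a b : ℝ) (t : I) : chord a b t 1 = (a + b) * chord a b t 0 - a * b := by
  rw [chord_x, chord_y]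
  ring

theorem chord_injective {a b : ℝ} (hab : a ≠ b) : Function.Injective (chord a b) := by
  intro s t hst
  have h1 : chord a b s 0 = chord a b t 0 := by rw [hst]
  rw [chord_x, chord_x] at h1
  have h2 : ((s : ℝ) - t) * (b - a) = 0 := by linarith
  rcases mul_eq_zero.mp h2 with h | h
  · exact Subtype.ext (by linarith)
  · exact absurd (by linarith) hab

theorem chord_avoids {a b : ℝ} (hab : a ≠ b) {t : I} (h0 : t ≠ 0) (h1 : t ≠ 1) (x : ℝ) :
    chord a b t ≠ para x := by
  intro h
  have hx : chord a b t 0 = x := by rw [h, para_zero]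
  have hy : chord a b t 1 = x ^ 2 := by rw [h, para_one]
  rw [chord_x] at hx
  rw [chord_y, ← hx] at hy
  have h3 : (t : ℝ) * (1 - t) * (a - b) ^ 2 = 0 := by linarith
  have h0' : (t : ℝ) ≠ 0 := fun h => h0 (Subtype.ext h)
  have h1' : (1 - (t : ℝ)) ≠ 0 := fun h => h1 (Subtype.ext (by
    have : (t : ℝ) = 1 := by linarith
    exact this))
  have h4 : (a - b) ^ 2 ≠ 0 := pow_ne_zero 2 (sub_ne_zero.mpr hab)
  exact (mul_ne_zero (mul_ne_zero h0' h1') h4) h3

/-- Two different chords have at most one common point. -/
theorem chord_inter {a b c d : ℝ} (h : ¬ ((a = c ∧ b = d) ∨ (a = d ∧ b = c))) {p q : Plane}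
    (hp : ∃ t, chord a b t = p) (hp' : ∃ t, chord c d t = p)
    (hq : ∃ t, chord a b t = q) (hq' : ∃ t, chord c d t = q) : p = q := by
  obtain ⟨t1, ht1⟩ := hp
  obtain ⟨t2, ht2⟩ := hp'
  obtain ⟨t3, ht3⟩ := hq
  obtain ⟨t4, ht4⟩ := hq'
  have e1 : p 1 = (a + b) * p 0 - a * b := by rw [← ht1]; exact chord_line a b t1
  have e2 : p 1 = (c + d) * p 0 - c * d := by rw [← ht2]; exact chord_line c d t2
  have e3 : q 1 = (a + b) * q 0 - a * b := by rw [← ht3]; exact chord_line a b t3
  have e4 : q 1 = (c + d) * q 0 - c * d := by rw [← ht4]; exact chord_line c d t4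
  have e5 : (a + b - (c + d)) * (p 0 - q 0) = 0 := by linear_combination e2 - e1 - e4 + e3
  rcases mul_eq_zero.mp e5 with h1 | h1
  · -- the chords are on the same line
    exfalso
    apply h
    have h2 : a * b = c * d := by
      have : (a + b - (c + d)) * p 0 = a * b - c * d := by linear_combination e2 - e1
      rw [h1] at this
      linarith
    have h3 : (a - c) * (a - d) = 0 := by
      have : c + d = a + b := by linarith
      have h4 : (a - c) * (a - d) = a ^ 2 - a * (c + d) + c * d := by ring
      rw [h4, this, ← h2]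
      ring
    rcases mul_eq_zero.mp h3 with h4 | h4
    · exact Or.inl ⟨by linarith, by linarith⟩
    · exact Or.inr ⟨by linarith, by linarith⟩
  · have h0 : p 0 = q 0 := by linarith
    ext i
    fin_cases i
    · exact h0
    · change p 1 = q 1
      rw [e1, e3, h0]

/-- Every finite graph has a drawing with finitely many crossings. -/
theorem exists_drawing {V : Type*} [Finite V] (G : SimpleGraph V) :
    ∃ D : Drawing G, D.crossings.Finite := by
  obtain ⟨n, ⟨g⟩⟩ := Finite.exists_equiv_fin V
  set a : V → ℝ := fun v => ((g v : ℕ) : ℝ) with ha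
  have hainj : Function.Injective a := by
    intro u v h
    apply g.injective
    apply Fin.ext
    simp only [ha] at h
    exact_mod_cast h
  have hne : ∀ e ∈ G.edgeSet, a e.out.1 ≠ a e.out.2 := by
    intro e he h
    have h1 : s(e.out.1, e.out.2) = e := Quot.out_eq e
    rw [← h1] at he
    exact G.irrefl (hainj h ▸ he : G.Adj _ _)
  let D : Drawing G :=
    { pos := fun v => para (a v)
      arc := fun e => chord (a e.out.1) (a e.out.2)
      pos_injective := fun u v h => hainj (by
        have h' : para (a u) = para (a v) := h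
        rw [← para_zero (a u), ← para_zero (a v), h'])
      arc_injective := fun e he => chord_injective (hne e he)
      arc_ends := fun e he => by
        have h1 : s(e.out.1, e.out.2) = e := Quot.out_eq e
        conv_rhs => rw [← h1]
        rw [Sym2.map_mk]
        congr 1
        · simp [chord]
        · simp [chord]
      arc_avoids := fun e he t h0 h1 v => chord_avoids (hne e he) h0 h1 _ }
  refine ⟨D, ?_⟩
  -- for every pair of edges there is at most one crossing
  have hsub : ∀ p : Sym2 (Sym2 V), {q ∈ D.crossings | q.1 = p}.Subsingleton := by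
    intro p
    refine Sym2.ind (fun e f => ?_) p
    rintro ⟨q, x⟩ ⟨⟨hd, hx⟩, hq⟩ ⟨q', y⟩ ⟨⟨_, hy⟩, hq'⟩
    simp only at hq hq' hd hx hy
    subst hq
    subst hq'
    have hef : e ≠ f := by simpa using hd
    obtain ⟨-, t1, -, -, h1⟩ := hx e (by simp)
    obtain ⟨-, t2, -, -, h2⟩ := hx f (by simp)
    obtain ⟨-, t3, -, -, h3⟩ := hy e (by simp)
    obtain ⟨-, t4, -, -, h4⟩ := hy f (by simp)
    have hxy : x = y := by
      refine chord_inter (fun h => hef ?_) ⟨t1, h1⟩ ⟨t2, h2⟩ ⟨t3, h3⟩ ⟨t4, h4⟩
      have e1 : s(e.out.1, e.out.2) = e := Quot.out_eq e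
      have e2 : s(f.out.1, f.out.2) = f := Quot.out_eq f
      rw [← e1, ← e2, Sym2.eq_iff]
      rcases h with h | h
      · exact Or.inl ⟨hainj h.1, hainj h.2⟩
      · exact Or.inr ⟨hainj h.1, hainj h.2⟩
    rw [hxy]
  have : D.crossings = ⋃ p : Sym2 (Sym2 V), {q ∈ D.crossings | q.1 = p} := by
    ext q
    simp
  rw [this]
  exact Set.finite_iUnion (fun p => (hsub p).finite)

/-- The crossing number is attained. -/
theorem exists_optimal {V : Type*} [Finite V] (G : SimpleGraph V) :
    ∃ D : Drawing G, ∃ h : D.crossings.Finite, h.toFinset.card = crossingNumber G := by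
  have hne : {n : ℕ | ∃ D : Drawing G, D.crossings.encard = n}.Nonempty := by
    obtain ⟨D, hD⟩ := exists_drawing G
    exact ⟨hD.toFinset.card, D, hD.encard_eq_coe_toFinset_card⟩
  obtain ⟨D, hD⟩ := Nat.sInf_mem hne
  have hfin : D.crossings.Finite := by
    rw [← Set.encard_ne_top_iff, hD]
    exact ENat.natCast_ne_top _
  refine ⟨D, hfin, ?_⟩
  rw [hfin.encard_eq_coe_toFinset_card] at hD
  exact_mod_cast hD

end Pool.Agent.helper15.Crossing
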