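import Pool.Agent.helper15.Crossing.Defs

/-!
# Edge isoperimetry in the hypercube
-/

set_option autoImplicit false

namespace Pool.Agent.helper15.Crossing

open Finset Classical

theorem hypercube_adj_cons {k : ℕ} (a b : Bool) (x y : Fin k → Bool) :
    (hypercube (k + 1)).Adj (Fin.cons a x : Fin (k + 1) → Bool) (Fin.cons b y : Fin (k + 1) → Bool)
      ↔ (a = b ∧ (hypercube k).Adj x y) ∨ (a ≠ b ∧ x = y) := by
  simp only [hypercube]
  constructor
  · rintro ⟨i, hi, hu⟩
    refine Fin.cases (fun hi hu => ?_) (fun i hi hu => ?_) i hi hu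
    · right
      refine ⟨by simpa using hi, ?_⟩
      ext j
      by_contra hne
      have := hu j.succ (by simpa using hne)
      exact Fin.succ_ne_zero _ this
    · left
      constructor
      · by_contra hab
        have := hu 0 (by simpa using hab)
        exact Fin.succ_ne_zero _ this.symm
      · refine ⟨i, by simpa using hi, fun j hj => ?_⟩
        exact Fin.succ_injective _ (hu j.succ (by simpa using hj))
  · rintro (⟨rfl, i, hi, hu⟩ | ⟨hab, rfl⟩)
    · refine ⟨i.succ, by simpa using hi, fun j => ?_⟩
      refine Fin.cases (fun hj => ?_) (fun j hj => ?_) j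
      · simp at hj
      · rw [hu j (by simpa using hj)]
    · refine ⟨0, by simpa using hab, fun j => ?_⟩
      refine Fin.cases (fun _ => rfl) (fun j hj => ?_) j
      simp at hj

/-- `2 p log 2 ≤ H(p)` for `p ≤ 1/2`. -/
theorem two_mul_le_binEntropy {p : ℝ} (h0 : 0 ≤ p) (h1 : p ≤ 1 / 2) :
    2 * p * Real.log 2 ≤ Real.binEntropy p := by
  have hc := Real.strictConcave_binEntropy.concaveOn
  have := hc.2 (by norm_num : (0 : ℝ) ∈ Set.Icc 0 1) (by norm_num : (2⁻¹ : ℝ) ∈ Set.Icc 0 1)
    (by linarith : 0 ≤ 1 - 2 * p) (by linarith : 0 ≤ 2 * p) (by ring)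
  simp only [Real.binEntropy_zero, Real.binEntropy_two_inv, smul_eq_mul, mul_zero, zero_add] at this
  have h2 : 2 * p * 2⁻¹ = p := by ring
  rwa [h2] at this

theorem key_real {a b : ℝ} (ha : 0 < a) (hab : a ≤ b) :
    a * Real.log a + b * Real.log b + 2 * a * Real.log 2 ≤ (a + b) * Real.log (a + b) := by
  have hb : 0 < b := ha.trans_le hab
  have hs : 0 < a + b := by linarith
  have h := two_mul_le_binEntropy (p := a / (a + b)) (by positivity)
    (by rw [div_le_iff₀ hs]; linarith)
  have h1 : 1 - a / (a + b) = b / (a + b) := by field_simp; ring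
  rw [Real.binEntropy, h1, inv_div, inv_div, Real.log_div hs.ne' ha.ne',
    Real.log_div hs.ne' hb.ne'] at h
  have h2 := mul_le_mul_of_nonneg_left h hs.le
  have e1 : (a + b) * (2 * (a / (a + b)) * Real.log 2) = 2 * a * Real.log 2 := by
    field_simp
  have e2 : (a + b) * (a / (a + b) * (Real.log (a + b) - Real.log a) +
      b / (a + b) * (Real.log (a + b) - Real.log b)) =
      (a + b) * Real.log (a + b) - a * Real.log a - b * Real.log b := by
    field_simp
    ring
  rw [e1, e2] at h2
  linarith

/-- The integer form of the inequality. -/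
theorem key_nat (a b m : ℕ) (hma : m ≤ a) (hmb : m ≤ b) :
    a * Real.logb 2 a + b * Real.logb 2 b + 2 * m ≤ ((a + b : ℕ) : ℝ) * Real.logb 2 (a + b : ℕ) := by
  have hl : 0 < Real.log 2 := Real.log_pos (by norm_num)
  have main : a * Real.log a + b * Real.log b + 2 * m * Real.log 2
      ≤ ((a + b : ℕ) : ℝ) * Real.log (a + b : ℕ) := by
    rcases Nat.eq_zero_or_pos a with rfl | ha
    · obtain rfl : m = 0 := by omega
      simp
    rcases Nat.eq_zero_or_pos b with rfl | hb
    · obtain rfl : m = 0 := by omega
      simp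
    have ha' : (0 : ℝ) < a := by exact_mod_cast ha
    have hb' : (0 : ℝ) < b := by exact_mod_cast hb
    have hma' : (m : ℝ) ≤ a := by exact_mod_cast hma
    have hmb' : (m : ℝ) ≤ b := by exact_mod_cast hmb
    push_cast
    rcases le_total (a : ℝ) b with h | h
    · have := key_real ha' h
      nlinarith
    · have := key_real hb' h
      rw [add_comm (a : ℝ) b]
      nlinarith
  simp only [Real.logb]
  rw [← mul_div_assoc, ← mul_div_assoc, ← mul_div_assoc, ← add_div, div_add' _ _ _ hl.ne',
    div_le_div_iff_of_pos_right hl]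
  linarith

/-- The number of ordered pairs of adjacent vertices in a set. -/
noncomputable def e2 {k : ℕ} (S : Finset (Fin k → Bool)) : ℕ :=
  ∑ x, ∑ y, if x ∈ S ∧ y ∈ S ∧ (hypercube k).Adj x y then 1 else 0

/-- The slice of `S` with first coordinate `a`. -/
noncomputable def slice {k : ℕ} (S : Finset (Fin (k + 1) → Bool)) (a : Bool) :
    Finset (Fin k → Bool) :=
  univ.filter fun x => (Fin.cons a x : Fin (k + 1) → Bool) ∈ S

theorem mem_slice {k : ℕ} {S : Finset (Fin (k + 1) → Bool)} {a : Bool} {x : Fin k → Bool} :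
    x ∈ slice S a ↔ (Fin.cons a x : Fin (k + 1) → Bool) ∈ S := by
  simp [slice]

theorem sum_cons {k : ℕ} (f : (Fin (k + 1) → Bool) → ℕ) :
    ∑ x, f x = ∑ x : Fin k → Bool, f (Fin.cons true x) + ∑ x : Fin k → Bool, f (Fin.cons false x) := by
  rw [← (Fin.consEquiv (fun _ : Fin (k + 1) => Bool)).sum_comp, Fintype.sum_prod_type,
    Fintype.sum_bool]
  rfl

theorem card_slice {k : ℕ} (S : Finset (Fin (k + 1) → Bool)) :
    S.card = (slice S true).card + (slice S false).card := by
  have h : ∀ {j : ℕ} (T : Finset (Fin j → Bool)), T.card = ∑ x, if x ∈ T then 1 else 0 := by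
    intro j T
    rw [Finset.sum_ite_mem]
    simp
  rw [h S, sum_cons, h, h]
  simp only [mem_slice]

theorem e2_slice {k : ℕ} (S : Finset (Fin (k + 1) → Bool)) :
    e2 S = e2 (slice S true) + e2 (slice S false) + 2 * (slice S true ∩ slice S false).card := by
  have h : (slice S true ∩ slice S false).card
      = ∑ x : Fin k → Bool, if (Fin.cons true x : Fin (k + 1) → Bool) ∈ S ∧
          (Fin.cons false x : Fin (k + 1) → Bool) ∈ S then 1 else 0 := by
    rw [← Finset.sum_filter, Finset.sum_const, smul_eq_mul, mul_one]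
    congr 1
    ext x
    simp [mem_slice]
  unfold e2
  rw [sum_cons]
  simp only [sum_cons (fun y => ite (_ ∧ y ∈ S ∧ _) 1 0), hypercube_adj_cons, mem_slice]
  simp only [Finset.sum_add_distrib]
  have e1 : ∀ x : Fin k → Bool, (∑ y : Fin k → Bool,
      if (Fin.cons true x : Fin (k + 1) → Bool) ∈ S ∧ (Fin.cons false y : Fin (k + 1) → Bool) ∈ S ∧
        (true = false ∧ (hypercube k).Adj x y ∨ true ≠ false ∧ x = y) then 1 else 0)
      = if (Fin.cons true x : Fin (k + 1) → Bool) ∈ S ∧
          (Fin.cons false x : Fin (k + 1) → Bool) ∈ S then 1 else 0 := by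
    intro x
    rw [Finset.sum_eq_single x]
    · simp
    · intro y _ hy
      simp [hy.symm]
    · simp
  have e2 : ∀ x : Fin k → Bool, (∑ y : Fin k → Bool,
      if (Fin.cons false x : Fin (k + 1) → Bool) ∈ S ∧ (Fin.cons true y : Fin (k + 1) → Bool) ∈ S ∧
        (false = true ∧ (hypercube k).Adj x y ∨ false ≠ true ∧ x = y) then 1 else 0)
      = if (Fin.cons true x : Fin (k + 1) → Bool) ∈ S ∧
          (Fin.cons false x : Fin (k + 1) → Bool) ∈ S then 1 else 0 := by
    intro x
    rw [Finset.sum_eq_single x]
    · simp [and_comm]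
    · intro y _ hy
      simp [hy.symm]
    · simp
  simp only [e1, e2, ← h]
  simp only [ne_eq, not_true_eq_false, false_and, or_false, true_and]
  ring

theorem e2_le {k : ℕ} (S : Finset (Fin k → Bool)) : (e2 S : ℝ) ≤ S.card * Real.logb 2 S.card := by
  induction k with
  | zero =>
    have h0 : e2 S = 0 := by
      unfold e2
      refine Finset.sum_eq_zero fun x _ => Finset.sum_eq_zero fun y _ => ?_
      rw [if_neg]
      rintro ⟨_, _, i, _⟩
      exact i.elim0
    rw [h0]
    have h1 : S.card ≤ 1 := by
      have := Finset.card_le_univ S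
      simpa using this
    interval_cases S.card <;> simp
  | succ k ih =>
    rw [e2_slice, card_slice S]
    have h1 := ih (slice S true)
    have h2 := ih (slice S false)
    have h3 := key_nat (slice S true).card (slice S false).card
      (slice S true ∩ slice S false).card (Finset.card_le_card Finset.inter_subset_left)
      (Finset.card_le_card Finset.inter_subset_right)
    push_cast at *
    linarith

/-- A set of at most `2 ^ m` vertices spans at most `m |S| / 2` edges. -/
theorem e2_le_of_card_le {k m : ℕ} (S : Finset (Fin k → Bool)) (hS : S.card ≤ 2 ^ m) :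
    e2 S ≤ S.card * m := by
  have h1 := e2_le S
  rcases Nat.eq_zero_or_pos S.card with h0 | hpos
  · rw [h0] at h1 ⊢
    simp at h1
    simp [h1]
  · have h2 : Real.logb 2 S.card ≤ m := by
      rw [Real.logb_le_iff_le_rpow (by norm_num) (by exact_mod_cast hpos)]
      rw [Real.rpow_natCast]
      exact_mod_cast hS
    have h3 : (e2 S : ℝ) ≤ S.card * m :=
      h1.trans (mul_le_mul_of_nonneg_left h2 (Nat.cast_nonneg _))
    exact_mod_cast h3

/-- If the vertices of `Q_k` are partitioned into classes of size at most `2 ^ m`, there are at most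
`2 ^ k m` ordered pairs of adjacent vertices in a common class. -/
theorem pairs_same_class {k m : ℕ} {ι : Type*} (f : (Fin k → Bool) → ι)
    (hf : ∀ x, (univ.filter fun y => f y = f x).card ≤ 2 ^ m) :
    (univ.filter fun p : (Fin k → Bool) × (Fin k → Bool) =>
      (hypercube k).Adj p.1 p.2 ∧ f p.1 = f p.2).card ≤ 2 ^ k * m := by
  have h1 : ∀ c ∈ univ.image f, ((univ.filter fun p : (Fin k → Bool) × (Fin k → Bool) =>
      (hypercube k).Adj p.1 p.2 ∧ f p.1 = f p.2).filter fun p => f p.1 = c).card
      ≤ (univ.filter fun y => f y = c).card * m := by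
    intro c hc
    obtain ⟨x, _, rfl⟩ := Finset.mem_image.mp hc
    refine le_trans (le_of_eq ?_) (e2_le_of_card_le _ (hf x))
    unfold e2
    rw [← Finset.sum_product', ← Finset.sum_filter, Finset.sum_const, smul_eq_mul, mul_one]
    congr 1
    ext ⟨y, z⟩
    simp only [Finset.mem_filter, Finset.mem_univ, true_and, Finset.mem_product]
    constructor
    · rintro ⟨⟨h1, h2⟩, h3⟩
      exact ⟨h3, h2.symm.trans h3, h1⟩
    · rintro ⟨h1, h2, h3⟩
      exact ⟨⟨h3, h1.trans h2.symm⟩, h1⟩
  calc _ = ∑ c ∈ univ.image f, ((univ.filter fun p : (Fin k → Bool) × (Fin k → Bool) =>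
      (hypercube k).Adj p.1 p.2 ∧ f p.1 = f p.2).filter fun p => f p.1 = c).card :=
        Finset.card_eq_sum_card_fiberwise (fun p _ => by simp)
    _ ≤ ∑ c ∈ univ.image f, (univ.filter fun y => f y = c).card * m := Finset.sum_le_sum h1
    _ = (∑ c ∈ univ.image f, (univ.filter fun y => f y = c).card) * m := by rw [Finset.sum_mul]
    _ = 2 ^ k * m := by
      congr 1
      have h2 := Finset.card_eq_sum_card_fiberwise (s := (univ : Finset (Fin k → Bool)))
        (t := univ.image f) (f := f) (fun x _ => by simp)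
      rw [← h2]
      simp

end Pool.Agent.helper15.Crossing
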