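import Pool.Agent.helper15.Crossing.Partition
import Pool.Agent.helper15.Crossing.Exists
import Pool.Agent.helper15.Crossing.Iso

/-!
# The biplanar crossing number of the hypercube: lower bound
-/

set_option autoImplicit false

namespace Pool.Agent.helper15.Crossing

open Finset Classical

/-- The vector `x` with coordinate `i` flipped. -/
def flip {k : ℕ} (x : Fin k → Bool) (i : Fin k) : Fin k → Bool := Function.update x i (!x i)

theorem adj_iff_flip {k : ℕ} {x y : Fin k → Bool} :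
    (hypercube k).Adj x y ↔ ∃ i, y = flip x i := by
  constructor
  · rintro ⟨i, hi, hu⟩
    refine ⟨i, ?_⟩
    ext j
    by_cases hji : j = i
    · subst hji
      simp only [flip, Function.update_self]
      cases hx : x j <;> cases hy : y j <;> simp_all
    · simp only [flip, Function.update_of_ne hji]
      by_contra h
      exact hji (hu j (fun h' => h h'.symm))
  · rintro ⟨i, rfl⟩
    refine ⟨i, by simp [flip], fun j hj => ?_⟩
    by_contra hji
    exact hj (by simp [flip, Function.update_of_ne hji])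

theorem flip_injective {k : ℕ} (x : Fin k → Bool) : Function.Injective (flip x) := by
  intro i j hij
  by_contra hne
  have := congrFun hij i
  simp [flip, Function.update_of_ne hne] at this

theorem card_adj (k : ℕ) :
    2 ^ k * k ≤ (univ.filter fun p : (Fin k → Bool) × (Fin k → Bool) =>
      (hypercube k).Adj p.1 p.2).card := by
  have h : (univ.image fun q : (Fin k → Bool) × Fin k => (q.1, flip q.1 q.2)).card = 2 ^ k * k := by
    rw [Finset.card_image_of_injective]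
    · simp
    · rintro ⟨x, i⟩ ⟨y, j⟩ h
      simp only [Prod.mk.injEq] at h
      obtain ⟨rfl, h⟩ := h
      rw [flip_injective x h]
  rw [← h]
  apply Finset.card_le_card
  intro p hp
  obtain ⟨⟨x, i⟩, _, rfl⟩ := Finset.mem_image.mp hp
  simp only [Finset.mem_filter, Finset.mem_univ, true_and]
  exact adj_iff_flip.mpr ⟨i, rfl⟩

theorem degree_le {k : ℕ} {G : SimpleGraph (Fin k → Bool)} (hG : G ≤ hypercube k)
    (v : Fin k → Bool) :
    (univ.filter fun e : Sym2 (Fin k → Bool) => e ∈ G.edgeSet ∧ v ∈ e).card ≤ k := by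
  have h : (univ.filter fun e : Sym2 (Fin k → Bool) => e ∈ G.edgeSet ∧ v ∈ e)
      ⊆ univ.image fun i : Fin k => s(v, flip v i) := by
    intro e he
    simp only [Finset.mem_filter, Finset.mem_univ, true_and] at he
    obtain ⟨he, w, rfl⟩ := he
    obtain ⟨i, hi⟩ := adj_iff_flip.mp (hG he)
    exact Finset.mem_image.mpr ⟨i, Finset.mem_univ _, by rw [← hi]⟩
  calc _ ≤ _ := Finset.card_le_card h
    _ ≤ (univ : Finset (Fin k)).card := Finset.card_image_le
    _ = k := by simp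

/-- The bound for one of the two planes. -/
theorem one_plane {k : ℕ} {G : SimpleGraph (Fin k → Bool)} (hG : G ≤ hypercube k) {i : ℕ}
    (hi : i ≤ k) :
    ((univ.filter fun p : (Fin k → Bool) × (Fin k → Bool) => G.Adj p.1 p.2).card : ℝ)
      ≤ 2 ^ k * (k - i : ℕ) + 160 * (Real.sqrt (2 ^ i) *
          Real.sqrt (2 ^ k * k ^ 2 + 4 * crossingNumber G : ℕ)) := by
  obtain ⟨D, hfin, hcr⟩ := exists_optimal G
  have hcard : Fintype.card (Fin k → Bool) = 2 ^ k := by simp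
  obtain ⟨f, hf1, hf2⟩ := D.partition hfin (k := k)
    (fun v => le_trans (le_of_eq (by congr!)) (degree_le hG v)) i
    (by rw [hcard]; exact Nat.pow_le_pow_right (by norm_num) hi)
  rw [hcr, hcard] at hf2
  have hclass : ∀ x, (univ.filter fun y => f y = f x).card ≤ 2 ^ (k - i) := by
    intro x
    have h1 := hf1 x
    rw [hcard] at h1
    have h2 : 2 ^ k = 2 ^ i * 2 ^ (k - i) := by rw [← pow_add]; congr 1; omega
    rw [h2] at h1
    exact Nat.le_of_mul_le_mul_left h1 (by positivity)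
  have h3 : (univ.filter fun p : (Fin k → Bool) × (Fin k → Bool) =>
      (hypercube k).Adj p.1 p.2 ∧ f p.1 = f p.2).card ≤ 2 ^ k * (k - i) :=
    le_trans (le_of_eq (by congr!)) (pairs_same_class (m := k - i) f
      (fun x => le_trans (le_of_eq (by congr!)) (hclass x)))
  have h4 : (univ.filter fun p : (Fin k → Bool) × (Fin k → Bool) => G.Adj p.1 p.2).card
      ≤ (univ.filter fun p : (Fin k → Bool) × (Fin k → Bool) =>
          (hypercube k).Adj p.1 p.2 ∧ f p.1 = f p.2).card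
        + (univ.filter fun p : (Fin k → Bool) × (Fin k → Bool) =>
          G.Adj p.1 p.2 ∧ f p.1 ≠ f p.2).card := by
    rw [← Finset.card_union_of_disjoint]
    · apply Finset.card_le_card
      intro p hp
      simp only [Finset.mem_filter, Finset.mem_univ, true_and, Finset.mem_union] at hp ⊢
      by_cases h : f p.1 = f p.2
      · exact Or.inl ⟨hG hp, h⟩
      · exact Or.inr ⟨hp, h⟩
    · rw [Finset.disjoint_left]
      intro p hp hp'
      simp only [Finset.mem_filter, Finset.mem_univ, true_and] at hp hp'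
      exact hp'.2 hp.2
  have h5' := h4.trans (Nat.add_le_add_right h3 _)
  have h5 : ((univ.filter fun p : (Fin k → Bool) × (Fin k → Bool) => G.Adj p.1 p.2).card : ℝ)
      ≤ (2 ^ k * (k - i) : ℕ) + ((univ.filter fun p : (Fin k → Bool) × (Fin k → Bool) =>
          G.Adj p.1 p.2 ∧ f p.1 ≠ f p.2).card : ℝ) := by
    rw [← Nat.cast_add]
    exact Nat.cast_le.mpr h5'
  refine h5.trans ?_
  push_cast at hf2 ⊢
  gcongr

/-- The combinatorial inequality for a partition of the hypercube. -/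
theorem two_planes {k : ℕ} (hk : 2 ≤ k) {G₁ G₂ : SimpleGraph (Fin k → Bool)}
    (hG : G₁ ⊔ G₂ = hypercube k) :
    (2 : ℝ) ^ k ≤ 160 * (Real.sqrt (2 ^ (k / 2 + 1)) *
        Real.sqrt (2 ^ k * k ^ 2 + 4 * crossingNumber G₁ : ℕ)) +
      160 * (Real.sqrt (2 ^ (k / 2 + 1)) *
        Real.sqrt (2 ^ k * k ^ 2 + 4 * crossingNumber G₂ : ℕ)) := by
  have h1 := one_plane (G := G₁) (hG ▸ le_sup_left) (i := k / 2 + 1) (by omega)
  have h2 := one_plane (G := G₂) (hG ▸ le_sup_right) (i := k / 2 + 1) (by omega)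
  have h3 : (2 ^ k * k : ℕ) ≤
      (univ.filter fun p : (Fin k → Bool) × (Fin k → Bool) => G₁.Adj p.1 p.2).card +
      (univ.filter fun p : (Fin k → Bool) × (Fin k → Bool) => G₂.Adj p.1 p.2).card := by
    refine (card_adj k).trans ?_
    refine le_trans (Finset.card_le_card ?_) (Finset.card_union_le _ _)
    intro p hp
    simp only [Finset.mem_filter, Finset.mem_univ, true_and, Finset.mem_union, ← hG,
      SimpleGraph.sup_adj] at hp ⊢
    exact hp
  have h4 : ((2 ^ k * k : ℕ) : ℝ) ≤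
      ((univ.filter fun p : (Fin k → Bool) × (Fin k → Bool) => G₁.Adj p.1 p.2).card : ℝ) +
      ((univ.filter fun p : (Fin k → Bool) × (Fin k → Bool) => G₂.Adj p.1 p.2).card : ℝ) := by
    exact_mod_cast h3
  have h5 : 2 ^ k * (k - (k / 2 + 1)) + 2 ^ k * (k - (k / 2 + 1)) + 2 ^ k ≤ 2 ^ k * k := by
    have : 2 * (k - (k / 2 + 1)) + 1 ≤ k := by omega
    calc _ = 2 ^ k * (2 * (k - (k / 2 + 1)) + 1) := by ring
      _ ≤ _ := Nat.mul_le_mul_left _ this
  have h6 : ((2 ^ k * (k - (k / 2 + 1) : ℕ) + 2 ^ k * (k - (k / 2 + 1) : ℕ) + 2 ^ k : ℕ) : ℝ)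
      ≤ ((2 ^ k * k : ℕ) : ℝ) := by exact_mod_cast h5
  rw [Nat.cast_add, Nat.cast_add, Nat.cast_mul, Nat.cast_pow, Nat.cast_ofNat] at h6
  linarith

theorem growth (k : ℕ) (hk : 64 ≤ k) : (409600 * k ^ 2) ^ 2 ≤ 2 ^ k := by
  induction k, hk using Nat.le_induction with
  | base => norm_num
  | succ n hn ih =>
    have h5 : 16 * (n + 1) ^ 2 ≤ 17 * n ^ 2 := by nlinarith
    have h6 : (16 * (n + 1) ^ 2) ^ 2 ≤ (17 * n ^ 2) ^ 2 := Nat.pow_le_pow_left h5 2
    have h7 : 256 * (409600 * (n + 1) ^ 2) ^ 2 ≤ 256 * 2 ^ (n + 1) := by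
      calc 256 * (409600 * (n + 1) ^ 2) ^ 2 = 409600 ^ 2 * (16 * (n + 1) ^ 2) ^ 2 := by ring
        _ ≤ 409600 ^ 2 * (17 * n ^ 2) ^ 2 := Nat.mul_le_mul_left _ h6
        _ = 289 * (409600 * n ^ 2) ^ 2 := by ring
        _ ≤ 289 * 2 ^ n := Nat.mul_le_mul_left _ ih
        _ ≤ 256 * 2 ^ (n + 1) := by rw [pow_succ]; omega
    exact Nat.le_of_mul_le_mul_left h7 (by norm_num)

/-- The explicit lower bound for a partition. -/
theorem explicit {k : ℕ} (hk : 64 ≤ k) {G₁ G₂ : SimpleGraph (Fin k → Bool)}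
    (hG : G₁ ⊔ G₂ = hypercube k) :
    (1 / 819200 : ℝ) * 2 ^ ((3 * k : ℝ) / 2) ≤ (crossingNumber G₁ + crossingNumber G₂ : ℕ) := by
  have h := two_planes (by omega) hG
  set s : ℝ := Real.sqrt (2 ^ k) with hs
  have hs2 : s ^ 2 = 2 ^ k := Real.sq_sqrt (by positivity)
  have hspos : 0 < s := Real.sqrt_pos.mpr (by positivity)
  set n : ℝ := ((crossingNumber G₁ + crossingNumber G₂ : ℕ) : ℝ) with hn
  set A₁ : ℝ := ((2 ^ k * k ^ 2 + 4 * crossingNumber G₁ : ℕ) : ℝ) with hA₁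
  set A₂ : ℝ := ((2 ^ k * k ^ 2 + 4 * crossingNumber G₂ : ℕ) : ℝ) with hA₂
  have hA : A₁ + A₂ = 2 * s ^ 2 * k ^ 2 + 4 * n := by
    rw [hA₁, hA₂, hn, hs2]
    push_cast
    ring
  have hA₁0 : 0 ≤ A₁ := Nat.cast_nonneg _
  have hA₂0 : 0 ≤ A₂ := Nat.cast_nonneg _
  -- `2 ^ (k / 2 + 1) ≤ 2 s`
  have hi : (2 : ℝ) ^ (k / 2 + 1) ≤ 2 * s := by
    have h1 : ((2 : ℝ) ^ (k / 2)) ≤ s := by
      apply Real.le_sqrt_of_sq_le
      rw [← pow_mul]
      exact pow_le_pow_right₀ (by norm_num) (by omega)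
    rw [pow_succ]
    linarith
  -- square the inequality
  have h1 : s ^ 2 ≤ 160 * Real.sqrt (2 ^ (k / 2 + 1)) * (Real.sqrt A₁ + Real.sqrt A₂) := by
    rw [hs2]
    calc (2 : ℝ) ^ k ≤ _ := h
      _ = _ := by ring
  have h2 : (s ^ 2) ^ 2 ≤ (160 * Real.sqrt (2 ^ (k / 2 + 1)) *
      (Real.sqrt A₁ + Real.sqrt A₂)) ^ 2 := pow_le_pow_left₀ (by positivity) h1 2
  have h3 : (160 * Real.sqrt (2 ^ (k / 2 + 1)) * (Real.sqrt A₁ + Real.sqrt A₂)) ^ 2
      ≤ 51200 * 2 ^ (k / 2 + 1) * (A₁ + A₂) := by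
    have e1 : (Real.sqrt (2 ^ (k / 2 + 1))) ^ 2 = (2 : ℝ) ^ (k / 2 + 1) :=
      Real.sq_sqrt (by positivity)
    have e2 : (Real.sqrt A₁ + Real.sqrt A₂) ^ 2 ≤ 2 * (A₁ + A₂) := by
      have := Real.sq_sqrt hA₁0
      have := Real.sq_sqrt hA₂0
      nlinarith [sq_nonneg (Real.sqrt A₁ - Real.sqrt A₂)]
    calc _ = 25600 * (Real.sqrt (2 ^ (k / 2 + 1))) ^ 2 * (Real.sqrt A₁ + Real.sqrt A₂) ^ 2 := by
          ring
      _ ≤ 25600 * (2 : ℝ) ^ (k / 2 + 1) * (2 * (A₁ + A₂)) := by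
          rw [e1]; gcongr
      _ = _ := by ring
  have h4 : (s ^ 2) ^ 2 ≤ 102400 * s * (2 * s ^ 2 * k ^ 2 + 4 * n) := by
    rw [← hA]
    calc (s ^ 2) ^ 2 ≤ _ := h2
      _ ≤ _ := h3
      _ ≤ 51200 * (2 * s) * (A₁ + A₂) := by gcongr
      _ = _ := by ring
  have h5 : s ^ 3 ≤ 102400 * (2 * s ^ 2 * k ^ 2 + 4 * n) := by
    have : s * s ^ 3 ≤ s * (102400 * (2 * s ^ 2 * k ^ 2 + 4 * n)) := by
      calc s * s ^ 3 = (s ^ 2) ^ 2 := by ring
        _ ≤ _ := h4
        _ = _ := by ring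
    exact le_of_mul_le_mul_left this hspos
  have h6 : 409600 * (k : ℝ) ^ 2 ≤ s := by
    apply Real.le_sqrt_of_sq_le
    exact_mod_cast growth k hk
  have h7 : (2 : ℝ) ^ ((3 * k : ℝ) / 2) = s ^ 3 := by
    have e1 : s = (2 : ℝ) ^ ((k : ℝ) / 2) := by
      rw [hs, Real.sqrt_eq_rpow, ← Real.rpow_natCast, ← Real.rpow_mul (by norm_num)]
      congr 1
      ring
    rw [e1, ← Real.rpow_natCast, ← Real.rpow_mul (by norm_num)]
    congr 1
    push_cast
    ring
  rw [h7]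
  have h8 : 409600 * (k : ℝ) ^ 2 * s ^ 2 ≤ s * s ^ 2 := by gcongr
  have h9 : s * s ^ 2 = s ^ 3 := by ring
  rw [h9] at h8
  linarith

theorem lower_bound {k : ℕ} (hk : 64 ≤ k) :
    (1 / 819200 : ℝ) * 2 ^ ((3 * k : ℝ) / 2) ≤ biplanarCrossingNumber (hypercube k) := by
  have hne : {n : ℕ | ∃ G₁ G₂ : SimpleGraph (Fin k → Bool), G₁ ⊔ G₂ = hypercube k ∧
      Disjoint G₁ G₂ ∧ crossingNumber G₁ + crossingNumber G₂ = n}.Nonempty :=
    ⟨_, hypercube k, ⊥, by simp, by simp, rfl⟩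
  obtain ⟨G₁, G₂, h1, _, h3⟩ := Nat.sInf_mem hne
  unfold biplanarCrossingNumber
  rw [← h3]
  exact explicit hk h1

end Pool.Agent.helper15.Crossing
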