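import Mathlib

/-!
# Drawings, crossing numbers, biplanar crossing numbers and hypercubes
-/

set_option autoImplicit false

namespace Pool.Agent.helper15.Crossing

/-- The Euclidean plane. -/
abbrev Plane : Type := EuclideanSpace ℝ (Fin 2)

/-- A drawing of the graph `G` in the plane.  Distinct vertices are drawn as distinct points, every
edge `e` is drawn as a simple arc (an injective continuous curve `arc e` on `[0,1]`) whose end
points are the points of the two ends of `e`, and the interior of this arc contains no vertex.
(The values `arc e` for `e` not an edge play no role.) -/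
structure Drawing {V : Type*} (G : SimpleGraph V) where
  /-- the points of the vertices -/
  pos : V → Plane
  /-- the arcs of the edges -/
  arc : Sym2 V → C(unitInterval, Plane)
  pos_injective : Function.Injective pos
  arc_injective : ∀ e ∈ G.edgeSet, Function.Injective (arc e)
  arc_ends : ∀ e ∈ G.edgeSet, s(arc e 0, arc e 1) = e.map pos
  arc_avoids : ∀ e ∈ G.edgeSet, ∀ t : unitInterval, t ≠ 0 → t ≠ 1 → ∀ v, arc e t ≠ pos v

/-- The crossings of a drawing: the pairs `({e, f}, x)` of an unordered pair of distinct edges `e`,
`f` and a point `x` which lies in the interior of the arcs of both `e` and `f`.  A point common to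
the interiors of more than two arcs gives one crossing for each pair of these arcs. -/
def Drawing.crossings {V : Type*} {G : SimpleGraph V} (D : Drawing G) :
    Set (Sym2 (Sym2 V) × Plane) :=
  {q | ¬ q.1.IsDiag ∧ ∀ e ∈ q.1, e ∈ G.edgeSet ∧
    ∃ t : unitInterval, t ≠ 0 ∧ t ≠ 1 ∧ D.arc e t = q.2}

/-- The crossing number of `G`: the least number of crossings of a drawing of `G`. -/
noncomputable def crossingNumber {V : Type*} (G : SimpleGraph V) : ℕ :=
  sInf {n : ℕ | ∃ D : Drawing G, D.crossings.encard = n}

/-- The biplanar crossing number of `G`: the least value of `cr(G₁) + cr(G₂)` over all partitions of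
the edge set of `G` into the edge sets of two graphs `G₁` and `G₂`. -/
noncomputable def biplanarCrossingNumber {V : Type*} (G : SimpleGraph V) : ℕ :=
  sInf {n : ℕ | ∃ G₁ G₂ : SimpleGraph V, G₁ ⊔ G₂ = G ∧ Disjoint G₁ G₂ ∧
    crossingNumber G₁ + crossingNumber G₂ = n}

/-- The hypercube graph `Q_k`: vertices are the `0,1`-vectors of length `k`, adjacent when they
differ in exactly one coordinate. -/
def hypercube (k : ℕ) : SimpleGraph (Fin k → Bool) where
  Adj x y := ∃! i, x i ≠ y i
  symm := ⟨fun _ _ ⟨i, hi, h⟩ => ⟨i, hi.symm, fun j hj => h j hj.symm⟩⟩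
  loopless := ⟨fun _ ⟨_, hi, _⟩ => hi rfl⟩

end Pool.Agent.helper15.Crossing
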