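import Mathlib

/-!
# Strong non-planarity of the complete graph on five vertices, for continuous paths

Given five points of the plane and a continuous path for each pair of them, some two paths
belonging to disjoint pairs meet.  The proof uses continuous logarithms and a parity count.
-/

set_option autoImplicit false

namespace Pool.Agent.helper15.Crossing

open Complex

/-- A nowhere vanishing continuous function on a simply connected locally path connected space has
a continuous logarithm. -/
theorem exists_log {A : Type*} [TopologicalSpace A] [SimplyConnectedSpace A]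
    [LocallyPathConnectedSpace A] (f : C(A, ℂ)) (hf : ∀ a, f a ≠ 0) :
    ∃ L : C(A, ℂ), ∀ a, exp (L a) = f a := by
  obtain ⟨a₀⟩ : Nonempty A := inferInstance
  obtain ⟨F, ⟨_, hF⟩, _⟩ := isCoveringMapOn_exp.existsUnique_continuousMap_lifts f
    (a₀ := a₀) (e₀ := Complex.log (f a₀)) (Complex.exp_log (hf a₀)) (fun a => hf a)
  exact ⟨F, fun a => congrFun hF a⟩

/-- The increment of a continuous logarithm along a path does not depend on its choice, nor on a
constant nonzero factor. -/
theorem increment_eq {L L' : ℝ → ℂ} (hL : Continuous L) (hL' : Continuous L') {z : ℂ}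
    (h : ∀ t, exp (L t) = exp (L' t) * z) : L 1 - L 0 = L' 1 - L' 0 := by
  have hz : z ≠ 0 := by
    intro h0
    have := h 0
    rw [h0, mul_zero] at this
    exact Complex.exp_ne_zero _ this
  obtain ⟨κ, hκ⟩ : ∃ κ, exp κ = z := ⟨Complex.log z, Complex.exp_log hz⟩
  set T : AddSubgroup ℂ := AddSubgroup.zmultiples (2 * Real.pi * I) with hT
  have : DiscreteTopology T := NormedSpace.discreteTopology_zmultiples _
  have hmem : ∀ t, L t - L' t - κ ∈ (T : Set ℂ) := by
    intro t
    have h1 : exp (L t - L' t - κ) = 1 := by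
      rw [Complex.exp_sub, Complex.exp_sub, h t, hκ]
      field_simp [Complex.exp_ne_zero]
    obtain ⟨n, hn⟩ := Complex.exp_eq_one_iff.mp h1
    rw [SetLike.mem_coe, hT, AddSubgroup.mem_zmultiples_iff]
    exact ⟨n, by rw [hn]; simp⟩
  have hcont : Continuous (fun t => L t - L' t - κ) := by fun_prop
  obtain ⟨y, _, hy⟩ := (isPreconnected_univ (α := ℝ)).eqOn_const_of_mapsTo
    (T := (T : Set ℂ)) (isDiscrete_iff_discreteTopology.mpr this) hcont.continuousOn
    (fun t _ => hmem t) ⟨0, T.zero_mem⟩
  have h1 := hy (Set.mem_univ (1 : ℝ))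
  have h0 := hy (Set.mem_univ (0 : ℝ))
  simp only [Function.const_apply] at h1 h0
  have : L 1 - L' 1 = L 0 - L' 0 := by
    have : L 1 - L' 1 - κ = L 0 - L' 0 - κ := by rw [h1, h0]
    exact sub_left_injective this
  linear_combination this


/-- The increment of the logarithm of `γ - p`. -/
theorem increment_log {γ : ℝ → ℂ} {L : ℝ → ℂ} {p x y a b : ℂ}
    (h : ∀ s, exp (L s) = γ s - p) (h0 : γ 0 = x) (h1 : γ 1 = y)
    (ha : exp a = x - p) (hb : exp b = y - p) :
    ∃ n : ℤ, L 1 - L 0 = b - a + n * (2 * Real.pi * I) := by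
  have h2 : exp (L 1 - L 0 - (b - a)) = 1 := by
    rw [Complex.exp_sub, Complex.exp_sub, Complex.exp_sub, h, h, ha, hb, h0, h1]
    have hx : x - p ≠ 0 := by rw [← ha]; exact Complex.exp_ne_zero _
    have hy : y - p ≠ 0 := by rw [← hb]; exact Complex.exp_ne_zero _
    field_simp
  obtain ⟨n, hn⟩ := Complex.exp_eq_one_iff.mp h2
  exact ⟨n, by rw [← hn]; ring⟩

/-- The basic relation for two disjoint paths `γ` (from `x` to `y`) and `δ` (from `z` to `w`). -/
theorem square_relation {γ δ : ℝ → ℂ} (hγ : Continuous γ) (hδ : Continuous δ)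
    (hne : ∀ s t, γ s ≠ δ t) {Lz Lw Mx My : ℝ → ℂ}
    (cLz : Continuous Lz) (cLw : Continuous Lw) (cMx : Continuous Mx) (cMy : Continuous My)
    (hLz : ∀ s, exp (Lz s) = γ s - δ 0) (hLw : ∀ s, exp (Lw s) = γ s - δ 1)
    (hMx : ∀ t, exp (Mx t) = δ t - γ 0) (hMy : ∀ t, exp (My t) = δ t - γ 1) :
    (Lz 1 - Lz 0) - (Lw 1 - Lw 0) + (My 1 - My 0) - (Mx 1 - Mx 0) = 0 := by
  obtain ⟨L, hL⟩ := exists_log (A := ℝ × ℝ) ⟨fun p => γ p.1 - δ p.2, by fun_prop⟩
    (fun p => sub_ne_zero.mpr (hne p.1 p.2))
  simp only [ContinuousMap.coe_mk, Prod.forall] at hL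
  have e1 : L (1, 0) - L (0, 0) = Lz 1 - Lz 0 :=
    increment_eq (L := fun s => L (s, 0)) (z := 1) (by fun_prop) cLz
      (fun t => by rw [hL, hLz, mul_one])
  have e2 : L (1, 1) - L (0, 1) = Lw 1 - Lw 0 :=
    increment_eq (L := fun s => L (s, 1)) (z := 1) (by fun_prop) cLw
      (fun t => by rw [hL, hLw, mul_one])
  have e3 : L (0, 1) - L (0, 0) = Mx 1 - Mx 0 :=
    increment_eq (L := fun s => L (0, s)) (z := -1) (by fun_prop) cMx
      (fun t => by rw [hL, hMx]; ring)
  have e4 : L (1, 1) - L (1, 0) = My 1 - My 0 :=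
    increment_eq (L := fun s => L (1, s)) (z := -1) (by fun_prop) cMy
      (fun t => by rw [hL, hMy]; ring)
  rw [← e1, ← e2, ← e3, ← e4]
  ring

/-- **Strong non-planarity of `K₅`.**  There are no five points and continuous paths joining each
pair of them such that paths belonging to disjoint pairs are disjoint. -/
theorem not_K5_paths (c : Fin 5 → ℂ) (γ : Fin 5 → Fin 5 → ℝ → ℂ)
    (hγ : ∀ i j, Continuous (γ i j)) (h0 : ∀ i j, i < j → γ i j 0 = c i)
    (h1 : ∀ i j, i < j → γ i j 1 = c j)
    (hdisj : ∀ i j k l, i < j → k < l → i ≠ k → i ≠ l → j ≠ k → j ≠ l →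
      ∀ s t, γ i j s ≠ γ k l t) : False := by
  -- a path avoids the other points
  have hne : ∀ i j k, i < j → k ≠ i → k ≠ j → ∀ s, γ i j s ≠ c k := by
    intro i j k hij hki hkj s
    have key : ∀ i j k : Fin 5, ∃ l, l ≠ i ∧ l ≠ j ∧ l ≠ k := by decide
    obtain ⟨l, hli, hlj, hlk⟩ := key i j k
    rcases lt_or_gt_of_ne hlk with h | h
    · rw [← h1 l k h]
      exact hdisj i j l k hij h hli.symm hki.symm hlj.symm hkj.symm s 1
    · rw [← h0 k l h]
      exact hdisj i j k l hij h hki.symm hli.symm hkj.symm hlj.symm s 0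
  have hc : ∀ x y, x ≠ y → c x ≠ c y := by
    intro x y hxy
    have key : ∀ i j : Fin 5, ∃ l, l ≠ i ∧ l ≠ j := by decide
    obtain ⟨l, hlx, hly⟩ := key x y
    rcases lt_or_gt_of_ne hlx with h | h
    · rw [← h1 l x h]
      exact hne l x y h hly.symm hxy.symm 1
    · rw [← h0 x l h]
      exact hne x l y h hxy.symm hly.symm 0
  -- logarithms of the differences of the points
  set α : Fin 5 → Fin 5 → ℂ := fun x y =>
    if x < y then Complex.log (c x - c y) else Complex.log (c y - c x) + Real.pi * I with hα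
  have hαexp : ∀ x y, x ≠ y → exp (α x y) = c x - c y := by
    intro x y hxy
    simp only [hα]
    split_ifs with h
    · exact Complex.exp_log (sub_ne_zero.mpr (hc x y hxy))
    · rw [Complex.exp_add, Complex.exp_log (sub_ne_zero.mpr (hc y x hxy.symm)),
        Complex.exp_pi_mul_I]
      ring
  set σ : Fin 5 → Fin 5 → ℤ := fun x y => if x < y then -1 else 1 with hσ
  have hασ : ∀ x y, x ≠ y → α x y - α y x = σ x y * (Real.pi * I) := by
    intro x y hxy
    simp only [hα, hσ]
    rcases lt_or_gt_of_ne hxy with h | h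
    · rw [if_pos h, if_neg (not_lt.mpr h.le), if_pos h]
      push_cast
      ring
    · rw [if_neg (not_lt.mpr h.le), if_pos h, if_neg (not_lt.mpr h.le)]
      push_cast
      ring
  -- logarithms along the paths
  have hlog : ∀ i j k, ∃ L : ℝ → ℂ, Continuous L ∧
      (i < j → k ≠ i → k ≠ j → ∀ s, exp (L s) = γ i j s - c k) := by
    intro i j k
    by_cases h : i < j ∧ k ≠ i ∧ k ≠ j
    · obtain ⟨L, hL⟩ := exists_log (A := ℝ) ⟨fun s => γ i j s - c k, by
        have := hγ i j
        fun_prop⟩ (fun s => sub_ne_zero.mpr (hne i j k h.1 h.2.1 h.2.2 s))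
      exact ⟨L, L.continuous, fun _ _ _ s => hL s⟩
    · exact ⟨fun _ => 0, continuous_const, fun h1 h2 h3 => absurd ⟨h1, h2, h3⟩ h⟩
  choose ℓ hℓc hℓ using hlog
  have hN : ∀ i j k, ∃ n : ℤ, i < j → k ≠ i → k ≠ j →
      ℓ i j k 1 - ℓ i j k 0 = α j k - α i k + n * (2 * Real.pi * I) := by
    intro i j k
    by_cases h : i < j ∧ k ≠ i ∧ k ≠ j
    · obtain ⟨n, hn⟩ := increment_log (hℓ i j k h.1 h.2.1 h.2.2) (h0 i j h.1) (h1 i j h.1)
        (hαexp i k h.2.1.symm) (hαexp j k h.2.2.symm)
      exact ⟨n, fun _ _ _ => hn⟩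
    · exact ⟨0, fun h1 h2 h3 => absurd ⟨h1, h2, h3⟩ h⟩
  choose N hN using hN
  -- the relation for two disjoint pairs
  have rel : ∀ i j k l : Fin 5, i < j → k < l → i ≠ k → i ≠ l → j ≠ k → j ≠ l →
      σ j k + σ k i + σ i l + σ l j + 2 * (N i j k - N i j l + N k l j - N k l i) = 0 := by
    intro i j k l hij hkl hik hil hjk hjl
    have sq := square_relation (hγ i j) (hγ k l) (hdisj i j k l hij hkl hik hil hjk hjl)
      (hℓc i j k) (hℓc i j l) (hℓc k l i) (hℓc k l j)
      (fun s => by rw [hℓ i j k hij hik.symm hjk.symm, h0 k l hkl])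
      (fun s => by rw [hℓ i j l hij hil.symm hjl.symm, h1 k l hkl])
      (fun s => by rw [hℓ k l i hkl hik hil, h0 i j hij])
      (fun s => by rw [hℓ k l j hkl hjk hjl, h1 i j hij])
    rw [hN i j k hij hik.symm hjk.symm, hN i j l hij hil.symm hjl.symm, hN k l i hkl hik hil,
      hN k l j hkl hjk hjl] at sq
    have e1 := hασ j k hjk
    have e2 := hασ k i hik.symm
    have e3 := hασ i l hil
    have e4 := hασ l j hjl.symm
    have e5 : ((σ j k + σ k i + σ i l + σ l j + 2 * (N i j k - N i j l + N k l j - N k l i) : ℤ)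
        : ℂ) * (Real.pi * I) = 0 := by
      push_cast
      linear_combination sq - e1 - e2 - e3 - e4
    have e6 : (Real.pi * I : ℂ) ≠ 0 :=
      mul_ne_zero (by exact_mod_cast Real.pi_ne_zero) I_ne_zero
    exact_mod_cast (mul_eq_zero.mp e5).resolve_right e6
  have r1 := rel 0 1 2 3 (by decide) (by decide) (by decide) (by decide) (by decide) (by decide)
  have r2 := rel 0 2 1 3 (by decide) (by decide) (by decide) (by decide) (by decide) (by decide)
  have r3 := rel 0 3 1 2 (by decide) (by decide) (by decide) (by decide) (by decide) (by decide)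
  have r4 := rel 0 1 2 4 (by decide) (by decide) (by decide) (by decide) (by decide) (by decide)
  have r5 := rel 0 2 1 4 (by decide) (by decide) (by decide) (by decide) (by decide) (by decide)
  have r6 := rel 0 4 1 2 (by decide) (by decide) (by decide) (by decide) (by decide) (by decide)
  have r7 := rel 0 1 3 4 (by decide) (by decide) (by decide) (by decide) (by decide) (by decide)
  have r8 := rel 0 3 1 4 (by decide) (by decide) (by decide) (by decide) (by decide) (by decide)
  have r9 := rel 0 4 1 3 (by decide) (by decide) (by decide) (by decide) (by decide) (by decide)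
  have r10 := rel 0 2 3 4 (by decide) (by decide) (by decide) (by decide) (by decide) (by decide)
  have r11 := rel 0 3 2 4 (by decide) (by decide) (by decide) (by decide) (by decide) (by decide)
  have r12 := rel 0 4 2 3 (by decide) (by decide) (by decide) (by decide) (by decide) (by decide)
  have r13 := rel 1 2 3 4 (by decide) (by decide) (by decide) (by decide) (by decide) (by decide)
  have r14 := rel 1 3 2 4 (by decide) (by decide) (by decide) (by decide) (by decide) (by decide)
  have r15 := rel 1 4 2 3 (by decide) (by decide) (by decide) (by decide) (by decide) (by decide)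
  simp only [hσ, Fin.reduceLT, if_true, if_false] at r1 r2 r3 r4 r5 r6 r7 r8 r9 r10 r11 r12 r13 r14 r15
  omega

/-- Set version of `not_K5_paths`: given five points and, for each pair, a set in which the two
points are joined by a path, two sets belonging to disjoint pairs meet. -/
theorem not_K5_joined (c : Fin 5 → ℂ) (F : Fin 5 → Fin 5 → Set ℂ)
    (hF : ∀ i j, i < j → JoinedIn (F i j) (c i) (c j))
    (hdisj : ∀ i j k l, i < j → k < l → i ≠ k → i ≠ l → j ≠ k → j ≠ l →
      Disjoint (F i j) (F k l)) : False := by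
  have hpath : ∀ i j, ∃ γ : ℝ → ℂ, Continuous γ ∧ (i < j → γ 0 = c i ∧ γ 1 = c j ∧
      ∀ s, γ s ∈ F i j) := by
    intro i j
    by_cases h : i < j
    · obtain ⟨p, hp⟩ := hF i j h
      refine ⟨p.extend, p.continuous_extend, fun _ => ⟨by simp, by simp, fun s => ?_⟩⟩
      simp only [Path.extend]
      exact hp _
    · exact ⟨fun _ => 0, continuous_const, fun h' => absurd h' h⟩
  choose γ hγc hγ using hpath
  exact not_K5_paths c γ hγc (fun i j h => (hγ i j h).1) (fun i j h => (hγ i j h).2.1)
    (fun i j k l hij hkl hik hil hjk hjl s t heq =>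
      (Set.disjoint_left.mp (hdisj i j k l hij hkl hik hil hjk hjl)) ((hγ i j hij).2.2 s)
        (heq ▸ (hγ k l hkl).2.2 t))

end Pool.Agent.helper15.Crossing
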