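import Pool.Agent.helper15.Crossing.Sep2

/-!
# Multi-level partitions of graphs without a `K₅` model
-/

set_option autoImplicit false
set_option linter.unusedSectionVars false

namespace Pool.Agent.helper15.Crossing

open Finset Classical

variable {P : Type*} [Fintype P]

/-- `H` with all edges not inside `U` removed. -/
def restrict (H : SimpleGraph P) (U : Finset P) : SimpleGraph P where
  Adj a b := H.Adj a b ∧ a ∈ U ∧ b ∈ U
  symm := ⟨fun _ _ h => ⟨h.1.symm, h.2.2, h.2.1⟩⟩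
  loopless := ⟨fun _ h => H.irrefl h.1⟩

theorem Conn.of_restrict {H : SimpleGraph P} {U S : Finset P} (h : Conn (restrict H U) S) :
    Conn H S :=
  ⟨h.1, fun u hu v hv => Relation.ReflTransGen.mono (fun _ _ hab => ⟨hab.1.1, hab.2⟩) _ _
    (h.2 u hu v hv)⟩

theorem Conn.to_restrict {H : SimpleGraph P} {U S : Finset P} (h : Conn H S) (hS : S ⊆ U) :
    Conn (restrict H U) S := by
  refine ⟨h.1, fun u hu v hv => ?_⟩
  have key : ∀ v, Relation.ReflTransGen (fun a b => H.Adj a b ∧ b ∈ S) u v →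
      Relation.ReflTransGen (fun a b => (restrict H U).Adj a b ∧ b ∈ S) u v ∧ v ∈ S := by
    intro v h
    induction h with
    | refl => exact ⟨Relation.ReflTransGen.refl, hu⟩
    | tail _ hbc ih =>
      exact ⟨ih.1.tail ⟨⟨hbc.1, hS ih.2, hS hbc.2⟩, hbc.2⟩, hbc.2⟩
  exact (key v (h.2 u hu v hv)).1

theorem not_hasK5Model_restrict {H : SimpleGraph P} (h : ¬ HasK5Model H) (U : Finset P) :
    ¬ HasK5Model (restrict H U) := by
  rintro ⟨B, h1, h2, h3⟩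
  refine h ⟨B, fun i => (h1 i).of_restrict, h2, fun i j hij => ?_⟩
  obtain ⟨x, hx, y, hy, hxy⟩ := h3 i j hij
  exact ⟨x, hx, y, hy, hxy.1⟩

theorem exists_root (a : ℕ) : ∃ r : ℕ, 5 * a ≤ r ^ 2 ∧ (r : ℝ) ≤ 4 * Real.sqrt a := by
  rcases Nat.eq_zero_or_pos a with rfl | ha
  · exact ⟨0, by simp, by simp⟩
  · refine ⟨Nat.sqrt (5 * a) + 1, (Nat.lt_succ_sqrt' _).le, ?_⟩
    have h1 : Nat.sqrt (5 * a) ^ 2 ≤ 5 * a := Nat.sqrt_le' _
    have h2 : 2 ≤ Nat.sqrt (5 * a) := by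
      rw [Nat.le_sqrt]
      omega
    have h3 : (Nat.sqrt (5 * a) + 1) ^ 2 ≤ 16 * a := by nlinarith
    have h4 : ((Nat.sqrt (5 * a) + 1 : ℕ) : ℝ) ^ 2 ≤ 16 * a := by exact_mod_cast h3
    have h5 : (4 * Real.sqrt a) ^ 2 = 16 * a := by
      rw [mul_pow, Real.sq_sqrt (Nat.cast_nonneg _)]
      norm_num
    exact le_of_sq_le_sq (by rw [h5]; exact h4) (by positivity)

/-- The separator theorem inside a set `U`. -/
theorem separator_in (H : SimpleGraph P) (c w : P → ℕ) (hK5 : ¬ HasK5Model H) (U : Finset P) :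
    ∃ Z : Finset P, (∑ x ∈ Z, c x : ℕ) ≤ 20 * Real.sqrt (∑ x ∈ U, c x ^ 2 : ℕ) ∧
      ∀ F : Finset P, Conn H F → F ⊆ U → Disjoint F Z → 2 * ∑ x ∈ F, w x ≤ ∑ x ∈ U, w x := by
  set c' : P → ℕ := fun x => if x ∈ U then c x else 0 with hc'
  set w' : P → ℕ := fun x => if x ∈ U then w x else 0 with hw'
  have hsum : ∑ x, c' x ^ 2 = ∑ x ∈ U, c x ^ 2 := by
    simp only [hc', ite_pow, ne_eq, OfNat.ofNat_ne_zero, not_false_eq_true, zero_pow]
    rw [Finset.sum_ite_mem, Finset.univ_inter]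
  have hw : ∑ x, w' x = ∑ x ∈ U, w x := by
    simp only [hw']
    rw [Finset.sum_ite_mem, Finset.univ_inter]
  obtain ⟨r, hr1, hr2⟩ := exists_root (∑ x ∈ U, c x ^ 2)
  obtain ⟨Z, hZ1, hZ2⟩ := separator (restrict H U) c' w' r (by rw [hsum]; exact hr1)
    (not_hasK5Model_restrict hK5 U)
  refine ⟨Z ∩ U, ?_, fun F hF hFU hd => ?_⟩
  · have h1 : ∑ x ∈ Z ∩ U, c x ≤ 5 * r := by
      refine le_trans (le_of_eq ?_) hZ1
      rw [← Finset.sum_ite_mem]
    have h2 : ((∑ x ∈ Z ∩ U, c x : ℕ) : ℝ) ≤ 5 * r := by exact_mod_cast h1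
    linarith
  · have hd' : Disjoint F Z := by
      rw [Finset.disjoint_left] at hd ⊢
      intro x hx hxZ
      exact hd hx (Finset.mem_inter.mpr ⟨hxZ, hFU hx⟩)
    have := hZ2 F (hF.to_restrict hFU) hd'
    rw [hw] at this
    refine le_trans (le_of_eq ?_) this
    congr 1
    refine Finset.sum_congr rfl fun x hx => ?_
    simp [hw', hFU hx]

theorem comp_eq_of_mem {H : SimpleGraph P} {X : Finset P} {u v : P} (hu : u ∉ X)
    (hv : v ∈ comp H X u) : comp H X v = comp H X u := by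
  have hvX : v ∉ X := Finset.disjoint_left.mp (comp_disjoint hu) hv
  ext x
  exact ⟨fun hx => comp_trans hv hx, fun hx => comp_trans (comp_symm hu hv) hx⟩

/-- One level of refinement. -/
theorem refine_level (H : SimpleGraph P) (c w : P → ℕ) (hK5 : ¬ HasK5Model H) (i : ℕ)
    (Z : Finset P)
    (hZ : ∀ F : Finset P, Conn H F → Disjoint F Z → 2 ^ i * ∑ x ∈ F, w x ≤ ∑ x, w x) :
    ∃ Z' : Finset P, (∑ x ∈ Z', c x : ℕ) ≤ ((∑ x ∈ Z, c x : ℕ) : ℝ)
        + 20 * (Real.sqrt (2 ^ (i + 1)) * Real.sqrt (∑ x, c x ^ 2 : ℕ)) ∧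
      ∀ F : Finset P, Conn H F → Disjoint F Z' → 2 ^ (i + 1) * ∑ x ∈ F, w x ≤ ∑ x, w x := by
  -- the heavy components
  set T : Finset P := univ.filter fun v => v ∉ Z ∧
    ∑ x, w x < 2 ^ (i + 1) * ∑ x ∈ comp H Z v, w x with hT
  set ℱ : Finset (Finset P) := T.image (comp H Z) with hℱ
  have hmem : ∀ F ∈ ℱ, ∃ v, v ∉ Z ∧ F = comp H Z v ∧
      ∑ x, w x < 2 ^ (i + 1) * ∑ x ∈ F, w x := by
    intro F hF
    obtain ⟨v, hv, rfl⟩ := Finset.mem_image.mp hF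
    simp only [hT, Finset.mem_filter, Finset.mem_univ, true_and] at hv
    exact ⟨v, hv.1, rfl, hv.2⟩
  have hdisj : (ℱ : Set (Finset P)).PairwiseDisjoint id := by
    intro F hF G hG hFG
    obtain ⟨u, hu, rfl, _⟩ := hmem F hF
    obtain ⟨v, hv, rfl, _⟩ := hmem G hG
    simp only [Function.onFun, id]
    rw [Finset.disjoint_left]
    intro x hxu hxv
    exact hFG ((comp_eq_of_mem hu hxu).symm.trans (comp_eq_of_mem hv hxv))
  have hsumle : ∀ f : P → ℕ, ∑ F ∈ ℱ, ∑ x ∈ F, f x ≤ ∑ x, f x := by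
    intro f
    have : ∑ F ∈ ℱ, ∑ x ∈ F, f x = ∑ x ∈ ℱ.biUnion id, f x :=
      (Finset.sum_biUnion hdisj).symm
    rw [this]
    exact Finset.sum_le_sum_of_subset (Finset.subset_univ _)
  have hcard : ℱ.card ≤ 2 ^ (i + 1) := by
    rcases Nat.eq_zero_or_pos (∑ x, w x) with h0 | hpos
    · have : ℱ = ∅ := by
        rw [Finset.eq_empty_iff_forall_notMem]
        intro F hF
        obtain ⟨_, _, _, h⟩ := hmem F hF
        have h1 : ∑ x ∈ F, w x ≤ ∑ x, w x := Finset.sum_le_sum_of_subset (Finset.subset_univ _)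
        have h2 : ∑ x ∈ F, w x = 0 := by omega
        rw [h2, mul_zero] at h
        omega
      simp [this]
    · have h1 : ℱ.card * ∑ x, w x ≤ 2 ^ (i + 1) * ∑ x, w x := by
        calc ℱ.card * ∑ x, w x = ∑ F ∈ ℱ, ∑ x, w x := by simp
          _ ≤ ∑ F ∈ ℱ, 2 ^ (i + 1) * ∑ x ∈ F, w x := by
            refine Finset.sum_le_sum fun F hF => ?_
            obtain ⟨_, _, _, h⟩ := hmem F hF
            exact h.le
          _ = 2 ^ (i + 1) * ∑ F ∈ ℱ, ∑ x ∈ F, w x := by rw [Finset.mul_sum]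
          _ ≤ _ := Nat.mul_le_mul_left _ (hsumle w)
      exact Nat.le_of_mul_le_mul_right h1 hpos
  choose S hS1 hS2 using separator_in H c w hK5
  refine ⟨Z ∪ ℱ.biUnion S, ?_, ?_⟩
  · have h1 : ∑ x ∈ Z ∪ ℱ.biUnion S, c x ≤ ∑ x ∈ Z, c x + ∑ F ∈ ℱ, ∑ x ∈ S F, c x :=
      (sum_union_le' c _ _).trans (Nat.add_le_add_left (sum_biUnion_le' c _ _) _)
    have h2 : ((∑ F ∈ ℱ, ∑ x ∈ S F, c x : ℕ) : ℝ)
        ≤ 20 * (Real.sqrt (2 ^ (i + 1)) * Real.sqrt (∑ x, c x ^ 2 : ℕ)) := by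
      rw [Nat.cast_sum]
      calc ∑ F ∈ ℱ, ((∑ x ∈ S F, c x : ℕ) : ℝ)
          ≤ ∑ F ∈ ℱ, 20 * Real.sqrt (∑ x ∈ F, c x ^ 2 : ℕ) :=
            Finset.sum_le_sum fun F _ => hS1 F
        _ = 20 * ∑ F ∈ ℱ, Real.sqrt 1 * Real.sqrt (∑ x ∈ F, c x ^ 2 : ℕ) := by
            rw [Finset.mul_sum]
            simp
        _ ≤ 20 * (Real.sqrt (∑ F ∈ ℱ, 1) * Real.sqrt (∑ F ∈ ℱ, ((∑ x ∈ F, c x ^ 2 : ℕ) : ℝ))) := by
            gcongr
            exact Real.sum_sqrt_mul_sqrt_le _ (fun _ => zero_le_one) (fun _ => Nat.cast_nonneg _)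
        _ ≤ _ := by
            gcongr
            · simp only [Finset.sum_const, nsmul_eq_mul, mul_one]
              exact_mod_cast hcard
            · have h3 := hsumle (fun x => c x ^ 2)
              have h4 : ((∑ F ∈ ℱ, ∑ x ∈ F, c x ^ 2 : ℕ) : ℝ) ≤ ((∑ x, c x ^ 2 : ℕ) : ℝ) := by
                exact_mod_cast h3
              rwa [Nat.cast_sum] at h4
    calc ((∑ x ∈ Z ∪ ℱ.biUnion S, c x : ℕ) : ℝ)
        ≤ ((∑ x ∈ Z, c x + ∑ F ∈ ℱ, ∑ x ∈ S F, c x : ℕ) : ℝ) := by exact_mod_cast h1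
      _ = ((∑ x ∈ Z, c x : ℕ) : ℝ) + ((∑ F ∈ ℱ, ∑ x ∈ S F, c x : ℕ) : ℝ) := by push_cast; ring
      _ ≤ _ := by gcongr
  · intro F hF hd
    obtain ⟨u, hu⟩ := hF.1
    have hdZ : Disjoint F Z := Finset.disjoint_of_subset_right Finset.subset_union_left hd
    have huZ : u ∉ Z := Finset.disjoint_left.mp hdZ hu
    have hFc : F ⊆ comp H Z u := hF.subset_comp hdZ hu
    have hle : ∑ x ∈ F, w x ≤ ∑ x ∈ comp H Z u, w x := Finset.sum_le_sum_of_subset hFc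
    by_cases hheavy : ∑ x, w x < 2 ^ (i + 1) * ∑ x ∈ comp H Z u, w x
    · have hmemF : comp H Z u ∈ ℱ := Finset.mem_image_of_mem _ (by
        simp only [hT, Finset.mem_filter, Finset.mem_univ, true_and]
        exact ⟨huZ, hheavy⟩)
      have hdS : Disjoint F (S (comp H Z u)) := by
        refine Finset.disjoint_of_subset_right ?_ hd
        exact (Finset.subset_biUnion_of_mem S hmemF).trans Finset.subset_union_right
      have h1 := hS2 (comp H Z u) F hF hFc hdS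
      have h2 := hZ _ (comp_conn huZ) (comp_disjoint huZ)
      calc 2 ^ (i + 1) * ∑ x ∈ F, w x = 2 ^ i * (2 * ∑ x ∈ F, w x) := by ring
        _ ≤ 2 ^ i * ∑ x ∈ comp H Z u, w x := Nat.mul_le_mul_left _ h1
        _ ≤ _ := h2
    · exact (Nat.mul_le_mul_left _ hle).trans (not_lt.mp hheavy)

/-- **Multi-level partition.** -/
theorem multilevel (H : SimpleGraph P) (c w : P → ℕ) (hK5 : ¬ HasK5Model H) (i : ℕ) :
    ∃ Z : Finset P, (∑ x ∈ Z, c x : ℕ)
        ≤ 80 * (Real.sqrt (2 ^ i) * Real.sqrt (∑ x, c x ^ 2 : ℕ)) ∧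
      ∀ F : Finset P, Conn H F → Disjoint F Z → 2 ^ i * ∑ x ∈ F, w x ≤ ∑ x, w x := by
  induction i with
  | zero =>
    refine ⟨∅, by simp, fun F _ _ => ?_⟩
    simpa using Finset.sum_le_sum_of_subset (Finset.subset_univ F)
  | succ i ih =>
    obtain ⟨Z, hZ1, hZ2⟩ := ih
    obtain ⟨Z', h1, h2⟩ := refine_level H c w hK5 i Z hZ2
    refine ⟨Z', h1.trans ?_, h2⟩
    have hs : Real.sqrt (2 ^ (i + 1)) = Real.sqrt 2 * Real.sqrt (2 ^ i) := by
      rw [pow_succ, mul_comm, Real.sqrt_mul (by norm_num : (0:ℝ) ≤ 2)]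
    have h2' : (4 : ℝ) / 3 ≤ Real.sqrt 2 := Real.le_sqrt_of_sq_le (by norm_num)
    have h3 : 0 ≤ Real.sqrt (2 ^ i) * Real.sqrt (∑ x, c x ^ 2 : ℕ) := by positivity
    rw [hs] at *
    nlinarith

end Pool.Agent.helper15.Crossing
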