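import Pool.Agent.helper15.Crossing.Planar

/-!
# From a drawing with few crossings to a partition with few cut edges
-/

set_option autoImplicit false
set_option linter.unusedSectionVars false
set_option linter.unusedVariables false

namespace Pool.Agent.helper15.Crossing

open Finset Classical unitInterval

variable {V : Type*} [Fintype V] {G : SimpleGraph V} (D : Drawing G)

theorem Drawing.end_mem_nodes {e : Sym2 V} (he : e ∈ G.edgeSet) {t : I} (ht : t = 0 ∨ t = 1) :
    ∃ v ∈ e, D.arc e t = D.pos v := by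
  have h := D.arc_ends e he
  have h1 : D.arc e t ∈ e.map D.pos := by
    rw [← h]
    rcases ht with rfl | rfl <;> simp
  obtain ⟨v, hv, hv'⟩ := Sym2.mem_map.mp h1
  exact ⟨v, hv, hv'.symm⟩

/-- Along an arc that avoids `Z` all nodes are in one component. -/
theorem Drawing.arc_comp [Fintype D.nodes] {e : Sym2 V} (he : e ∈ G.edgeSet)
    (Z : Finset D.nodes) (hZ : ∀ z ∈ Z, ∀ t, D.arc e t ≠ z) (h0 : D.arc e 0 ∈ D.nodes)
    (t : I) (ht : D.arc e t ∈ D.nodes) :
    (⟨D.arc e t, ht⟩ : D.nodes) ∈ comp D.planarGraph Z ⟨D.arc e 0, h0⟩ := by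
  set T : Set I := {t | D.arc e t ∈ D.nodes} with hT
  have hTfin : T.Finite := by
    have : (D.arc e ⁻¹' D.nodes).Finite :=
      (Set.toFinite D.nodes).preimage (D.arc_injective e he).injOn
    exact this
  by_contra hbad
  set Bad : Set I := {t | ∃ ht : D.arc e t ∈ D.nodes,
    (⟨D.arc e t, ht⟩ : D.nodes) ∉ comp D.planarGraph Z ⟨D.arc e 0, h0⟩} with hBad
  have hBfin : Bad.Finite := hTfin.subset (fun t ⟨ht, _⟩ => ht)
  obtain ⟨t0, ⟨ht0, hb0⟩, hmin⟩ := Set.exists_min_image Bad id hBfin ⟨t, ht, hbad⟩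
  have ht00 : 0 < t0 := by
    rcases (unitInterval.nonneg' (t := t0)).eq_or_lt with h | h
    · exfalso
      subst h
      exact hb0 (self_mem_comp _ _ _)
    · exact h
  -- the last node before `t0`
  obtain ⟨t1, ⟨ht1, ht10⟩, hmax⟩ := Set.exists_max_image {s | s ∈ T ∧ s < t0} id
    (hTfin.subset (fun s hs => hs.1)) ⟨0, h0, ht00⟩
  have hgood : (⟨D.arc e t1, ht1⟩ : D.nodes) ∈ comp D.planarGraph Z ⟨D.arc e 0, h0⟩ := by
    by_contra h
    have := hmin t1 ⟨ht1, h⟩
    simp only [id] at this
    exact absurd ht10 (not_lt.mpr this)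
  apply hb0
  refine comp_closed hgood ⟨e, t1, t0, ⟨he, ht10, fun r hr1 hr2 hr => ?_⟩, Or.inl ⟨rfl, rfl⟩⟩
    (fun h => hZ _ h t0 rfl)
  have := hmax r ⟨hr, hr2⟩
  simp only [id] at this
  exact absurd hr1 (not_lt.mpr this)

/-- The node of a vertex. -/
def Drawing.node (v : V) : D.nodes := ⟨D.pos v, Or.inl ⟨v, rfl⟩⟩

theorem Drawing.node_injective : Function.Injective D.node := fun u v h =>
  D.pos_injective (congrArg Subtype.val h)

theorem Drawing.edge_comp [Fintype D.nodes] {u v : V} (huv : G.Adj u v)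
    (Z : Finset D.nodes) (hZ : ∀ z ∈ Z, ∀ t, D.arc s(u, v) t ≠ z) :
    D.node v ∈ comp D.planarGraph Z (D.node u) := by
  have he : s(u, v) ∈ G.edgeSet := huv
  have hends := D.arc_ends _ he
  rw [Sym2.map_mk, Sym2.eq_iff] at hends
  have hn : ∀ t, (t = 0 ∨ t = 1) → D.arc s(u, v) t ∈ D.nodes := by
    intro t ht
    obtain ⟨w, _, hw⟩ := D.end_mem_nodes he ht
    rw [hw]
    exact Or.inl ⟨w, rfl⟩
  have h := D.arc_comp he Z hZ (hn 0 (Or.inl rfl)) 1 (hn 1 (Or.inr rfl))
  rcases hends with ⟨h1, h2⟩ | ⟨h1, h2⟩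
  · have e1 : (⟨D.arc s(u, v) 0, hn 0 (Or.inl rfl)⟩ : D.nodes) = D.node u := Subtype.ext h1
    have e2 : (⟨D.arc s(u, v) 1, hn 1 (Or.inr rfl)⟩ : D.nodes) = D.node v := Subtype.ext h2
    rwa [e1, e2] at h
  · have e1 : (⟨D.arc s(u, v) 0, hn 0 (Or.inl rfl)⟩ : D.nodes) = D.node v := Subtype.ext h1
    have e2 : (⟨D.arc s(u, v) 1, hn 1 (Or.inr rfl)⟩ : D.nodes) = D.node u := Subtype.ext h2
    rw [e1, e2] at h
    refine comp_symm (fun hv => hZ _ hv 0 ?_) h
    rw [h1]
    rfl

/-- The edges whose arcs pass through the point `x`. -/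
noncomputable def Drawing.through (x : Plane) : Finset (Sym2 V) :=
  univ.filter fun e => e ∈ G.edgeSet ∧ ∃ t, D.arc e t = x

theorem Drawing.mem_through {x : Plane} {e : Sym2 V} :
    e ∈ D.through x ↔ e ∈ G.edgeSet ∧ ∃ t, D.arc e t = x := by
  simp [Drawing.through]

/-- The cost of a node: the number of arcs through it. -/
noncomputable def Drawing.cost (x : D.nodes) : ℕ := (D.through x).card

theorem Drawing.cost_node_le {k : ℕ}
    (hdeg : ∀ v, (univ.filter fun e : Sym2 V => e ∈ G.edgeSet ∧ v ∈ e).card ≤ k) (v : V) :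
    D.cost (D.node v) ≤ k := by
  refine le_trans (Finset.card_le_card ?_) (hdeg v)
  intro e he
  obtain ⟨he, t, ht⟩ := D.mem_through.mp he
  simp only [Finset.mem_filter, Finset.mem_univ, true_and]
  refine ⟨he, ?_⟩
  obtain ⟨w, hw, hw'⟩ := D.end_mem_nodes he (D.arc_ne_zero_mem he v ht)
  rw [ht] at hw'
  have : v = w := D.pos_injective hw'
  rwa [this]

/-- At a crossing point the square of the cost is at most four times the number of crossings. -/
theorem Drawing.cost_sq_le (hfin : D.crossings.Finite) (x : D.nodes)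
    (hx : (x : Plane) ∉ Set.range D.pos) :
    D.cost x ^ 2 ≤ 4 * (hfin.toFinset.filter fun q => q.2 = (x : Plane)).card := by
  have hint : ∀ e ∈ D.through x, e ∈ G.edgeSet ∧
      ∃ t : I, t ≠ 0 ∧ t ≠ 1 ∧ D.arc e t = (x : Plane) := by
    intro e he
    obtain ⟨he, t, ht⟩ := D.mem_through.mp he
    have h01 : ¬ (t = 0 ∨ t = 1) := by
      intro h
      obtain ⟨w, _, hw⟩ := D.end_mem_nodes he h
      exact hx ⟨w, by rw [← hw, ht]⟩
    push Not at h01
    exact ⟨he, t, h01.1, h01.2, ht⟩
  have h2 : 2 ≤ D.cost x := by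
    rcases x.2 with h | ⟨q, hq, hqx⟩
    · exact absurd h hx
    · obtain ⟨e, f⟩ := q
      revert hq hqx
      refine Sym2.ind (fun e f hq hqx => ?_) e
      have hef : e ≠ f := by simpa using hq.1
      have hmem : ∀ g ∈ ({e, f} : Finset (Sym2 V)), g ∈ D.through x := by
        intro g hg
        obtain ⟨h1, t, _, _, ht⟩ := hq.2 g (by simpa using hg)
        exact D.mem_through.mpr ⟨h1, t, by rw [ht]; exact hqx⟩
      calc 2 = ({e, f} : Finset (Sym2 V)).card := (Finset.card_pair hef).symm
        _ ≤ _ := Finset.card_le_card hmem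
  have h3 : (D.cost x).choose 2 ≤ (hfin.toFinset.filter fun q => q.2 = (x : Plane)).card := by
    have h4 : ((D.through x).offDiag.image (Function.uncurry Sym2.mk)).card
        = (D.cost x).choose 2 := Sym2.card_image_offDiag _
    rw [← h4, ← Finset.card_image_of_injective (f := fun p : Sym2 (Sym2 V) => (p, (x : Plane))) _
      (fun a b hab => (Prod.ext_iff.mp hab).1)]
    apply Finset.card_le_card
    intro q hq
    obtain ⟨p, hp, rfl⟩ := Finset.mem_image.mp hq
    obtain ⟨⟨e, f⟩, hef, rfl⟩ := Finset.mem_image.mp hp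
    rw [Finset.mem_offDiag] at hef
    simp only [Finset.mem_filter, Set.Finite.mem_toFinset, and_true]
    refine ⟨by simpa using hef.2.2, ?_⟩
    intro g hg
    have hg' : g ∈ s(e, f) := hg
    rw [Sym2.mem_iff] at hg'
    rcases hg' with rfl | rfl
    · exact hint _ hef.1
    · exact hint _ hef.2.1
  have h5 : (D.cost x).choose 2 * 2 = D.cost x * (D.cost x - 1) := by
    rw [Nat.choose_two_right]
    exact Nat.div_mul_cancel (Nat.even_mul_pred_self _).two_dvd
  obtain ⟨m, hm⟩ : ∃ m, D.cost x = m + 2 := ⟨D.cost x - 2, by omega⟩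
  rw [hm] at h5 h3 ⊢
  have h6 : (m + 2) * (m + 2 - 1) = (m + 2) * (m + 1) := by simp
  rw [h6] at h5
  nlinarith

/-- The total area. -/
theorem Drawing.area_le [Fintype D.nodes] (hfin : D.crossings.Finite) {k : ℕ}
    (hdeg : ∀ v, (univ.filter fun e : Sym2 V => e ∈ G.edgeSet ∧ v ∈ e).card ≤ k) :
    ∑ x, D.cost x ^ 2 ≤ Fintype.card V * k ^ 2 + 4 * hfin.toFinset.card := by
  rw [← Finset.sum_filter_add_sum_filter_not univ (fun x : D.nodes => (x : Plane) ∈ Set.range D.pos)]
  apply add_le_add
  · have h1 : (univ.filter fun x : D.nodes => (x : Plane) ∈ Set.range D.pos)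
        = univ.image D.node := by
      ext x
      simp only [Finset.mem_filter, Finset.mem_univ, true_and, Set.mem_range, Finset.mem_image]
      constructor
      · rintro ⟨v, hv⟩
        exact ⟨v, Subtype.ext hv⟩
      · rintro ⟨v, rfl⟩
        exact ⟨v, rfl⟩
    rw [h1, Finset.sum_image (fun a _ b _ h => D.node_injective h)]
    calc ∑ v, D.cost (D.node v) ^ 2 ≤ ∑ _v : V, k ^ 2 :=
          Finset.sum_le_sum fun v _ => Nat.pow_le_pow_left (D.cost_node_le hdeg v) 2
      _ = Fintype.card V * k ^ 2 := by simp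
  · calc _ ≤ ∑ x ∈ univ.filter (fun x : D.nodes => ¬ (x : Plane) ∈ Set.range D.pos),
          4 * (hfin.toFinset.filter fun q => q.2 = (x : Plane)).card := by
          refine Finset.sum_le_sum fun x hx => D.cost_sq_le hfin x (Finset.mem_filter.mp hx).2
      _ = 4 * ∑ x ∈ univ.filter (fun x : D.nodes => ¬ (x : Plane) ∈ Set.range D.pos),
          (hfin.toFinset.filter fun q => q.2 = (x : Plane)).card := by rw [Finset.mul_sum]
      _ ≤ 4 * hfin.toFinset.card := by
          apply Nat.mul_le_mul_left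
          rw [← Finset.card_biUnion]
          · apply Finset.card_le_card
            intro q hq
            obtain ⟨x, _, hx⟩ := Finset.mem_biUnion.mp hq
            exact (Finset.mem_filter.mp hx).1
          · intro x _ y _ hxy
            rw [Function.onFun, Finset.disjoint_left]
            intro q hq hq'
            exact hxy (Subtype.ext ((Finset.mem_filter.mp hq).2.symm.trans
              (Finset.mem_filter.mp hq').2))

/-- **Main partition lemma.** -/
theorem Drawing.partition (hfin : D.crossings.Finite) {k : ℕ}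
    (hdeg : ∀ v, (univ.filter fun e : Sym2 V => e ∈ G.edgeSet ∧ v ∈ e).card ≤ k) (i : ℕ)
    (hi : 2 ^ i ≤ Fintype.card V) :
    ∃ f : V → Finset D.nodes,
      (∀ x, 2 ^ i * (univ.filter fun y => f y = f x).card ≤ Fintype.card V) ∧
      ((univ.filter fun p : V × V => G.Adj p.1 p.2 ∧ f p.1 ≠ f p.2).card : ℝ)
        ≤ 160 * (Real.sqrt (2 ^ i) *
          Real.sqrt (Fintype.card V * k ^ 2 + 4 * hfin.toFinset.card : ℕ)) := by
  have : Fintype D.nodes := (D.nodes_finite hfin).fintype
  set w : D.nodes → ℕ := fun x => if (x : Plane) ∈ Set.range D.pos then 1 else 0 with hw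
  have hwsum : ∀ F : Finset D.nodes, ∑ x ∈ F, w x = (univ.filter fun v => D.node v ∈ F).card := by
    intro F
    simp only [hw]
    rw [← Finset.sum_filter, Finset.sum_const, smul_eq_mul, mul_one,
      ← Finset.card_image_of_injective _ D.node_injective]
    congr 1
    ext x
    simp only [Finset.mem_filter, Set.mem_range, Finset.mem_image, Finset.mem_univ, true_and]
    constructor
    · rintro ⟨hx, v, hv⟩
      have : D.node v = x := Subtype.ext hv
      exact ⟨v, by rwa [this], this⟩
    · rintro ⟨v, hv, rfl⟩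
      exact ⟨hv, v, rfl⟩
  have hwtot : ∑ x, w x = Fintype.card V := by
    rw [hwsum]
    simp
  obtain ⟨Z, hZ1, hZ2⟩ := multilevel D.planarGraph D.cost w D.not_hasK5Model i
  refine ⟨fun v => comp D.planarGraph Z (D.node v), fun x => ?_, ?_⟩
  · by_cases hx : D.node x ∈ Z
    · have h1 : (univ.filter fun y => comp D.planarGraph Z (D.node y)
          = comp D.planarGraph Z (D.node x)) ⊆ {x} := by
        intro y hy
        rw [Finset.mem_filter] at hy
        rw [Finset.mem_singleton]
        by_cases hyZ : D.node y ∈ Z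
        · have h2 : D.node x ∈ comp D.planarGraph Z (D.node y) := by
            rw [hy.2]; exact self_mem_comp _ _ _
          have h3 : ∀ v, v ∈ comp D.planarGraph Z (D.node y) → v = D.node y ∨ v ∉ Z := by
            intro v hv
            exact closed_of_step (S := {v | v = D.node y ∨ v ∉ Z})
              (fun a b _ hab => Or.inr hab.2) (Or.inl rfl) (mem_comp.mp hv)
          rcases h3 _ h2 with h | h
          · exact (D.node_injective h).symm
          · exact absurd hx h
        · have h2 : D.node x ∈ comp D.planarGraph Z (D.node y) := by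
            rw [hy.2]; exact self_mem_comp _ _ _
          exact absurd hx (Finset.disjoint_left.mp (comp_disjoint hyZ) h2)
      calc 2 ^ i * _ ≤ 2 ^ i * 1 := Nat.mul_le_mul_left _ (by
            simpa using Finset.card_le_card h1)
        _ ≤ _ := by rw [mul_one]; exact hi
    · have h1 := hZ2 _ (comp_conn hx) (comp_disjoint hx)
      rw [hwtot, hwsum] at h1
      refine le_trans (Nat.mul_le_mul_left _ (Finset.card_le_card ?_)) h1
      intro y hy
      rw [Finset.mem_filter] at hy ⊢
      refine ⟨Finset.mem_univ _, ?_⟩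
      have h2 : comp D.planarGraph Z (D.node y) = comp D.planarGraph Z (D.node x) := hy.2
      rw [← h2]
      exact self_mem_comp _ _ _
  · -- the cut edges
    set C : Finset (Sym2 V) := Z.biUnion (fun z => D.through z) with hC
    have hCcard : C.card ≤ ∑ z ∈ Z, D.cost z := Finset.card_biUnion_le
    have h1 : (univ.filter fun p : V × V => G.Adj p.1 p.2 ∧
        comp D.planarGraph Z (D.node p.1) ≠ comp D.planarGraph Z (D.node p.2)).card
        ≤ 2 * C.card := by
      have h2 : ∀ p ∈ (univ.filter fun p : V × V => G.Adj p.1 p.2 ∧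
          comp D.planarGraph Z (D.node p.1) ≠ comp D.planarGraph Z (D.node p.2)),
          s(p.1, p.2) ∈ C := by
        rintro ⟨u, v⟩ hp
        rw [Finset.mem_filter] at hp
        obtain ⟨-, huv, hne⟩ := hp
        by_contra hmem
        apply hne
        have hav : ∀ z ∈ Z, ∀ t, D.arc s(u, v) t ≠ z := by
          intro z hz t ht
          exact hmem (Finset.mem_biUnion.mpr ⟨z, hz, D.mem_through.mpr ⟨huv, t, ht⟩⟩)
        have h3 := D.edge_comp huv Z hav
        have huZ : D.node u ∉ Z := by
          intro hu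
          have hends := D.arc_ends _ (show s(u, v) ∈ G.edgeSet from huv)
          rw [Sym2.map_mk, Sym2.eq_iff] at hends
          rcases hends with h | h
          · exact hav _ hu 0 h.1
          · exact hav _ hu 1 h.2
        exact (comp_eq_of_mem huZ h3).symm
      calc _ ≤ ∑ e ∈ C, ((univ.filter fun p : V × V => G.Adj p.1 p.2 ∧
          comp D.planarGraph Z (D.node p.1) ≠ comp D.planarGraph Z (D.node p.2)).filter
            fun p => s(p.1, p.2) = e).card := by
            rw [← Finset.card_eq_sum_card_fiberwise h2]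
        _ ≤ ∑ e ∈ C, 2 := by
            refine Finset.sum_le_sum fun e _ => ?_
            refine Sym2.ind (fun a b => ?_) e
            calc _ ≤ ({(a, b), (b, a)} : Finset (V × V)).card := by
                  apply Finset.card_le_card
                  rintro ⟨u, v⟩ hp
                  rw [Finset.mem_filter] at hp
                  have := hp.2
                  rw [Sym2.eq_iff] at this
                  rcases this with ⟨rfl, rfl⟩ | ⟨rfl, rfl⟩ <;> simp
              _ ≤ 2 := Finset.card_le_two
        _ = 2 * C.card := by simp [mul_comm]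
    have h4 : ((univ.filter fun p : V × V => G.Adj p.1 p.2 ∧
        comp D.planarGraph Z (D.node p.1) ≠ comp D.planarGraph Z (D.node p.2)).card : ℝ)
        ≤ 2 * (∑ z ∈ Z, D.cost z : ℕ) := by
      exact_mod_cast h1.trans (Nat.mul_le_mul_left 2 hCcard)
    have h5 : Real.sqrt (∑ x, D.cost x ^ 2 : ℕ) ≤
        Real.sqrt (Fintype.card V * k ^ 2 + 4 * hfin.toFinset.card : ℕ) := by
      apply Real.sqrt_le_sqrt
      exact_mod_cast D.area_le hfin hdeg
    calc _ ≤ 2 * ((∑ z ∈ Z, D.cost z : ℕ) : ℝ) := h4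
      _ ≤ 2 * (80 * (Real.sqrt (2 ^ i) * Real.sqrt (∑ x, D.cost x ^ 2 : ℕ))) := by gcongr
      _ = 160 * (Real.sqrt (2 ^ i) * Real.sqrt (∑ x, D.cost x ^ 2 : ℕ)) := by ring
      _ ≤ _ := by gcongr

end Pool.Agent.helper15.Crossing
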