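import Pool.Agent.helper15.Crossing.Defs
import Pool.Agent.helper15.Crossing.K5
import Pool.Agent.helper15.Crossing.Multi

/-!
# The planarisation of a drawing has no `K₅` model
-/

set_option autoImplicit false
set_option linter.unusedSectionVars false

namespace Pool.Agent.helper15.Crossing

open Finset Classical unitInterval

/-- `not_K5_joined` in the Euclidean plane. -/
theorem not_K5_plane (c : Fin 5 → Plane) (F : Fin 5 → Fin 5 → Set Plane)
    (hF : ∀ i j, i < j → JoinedIn (F i j) (c i) (c j))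
    (hdisj : ∀ i j k l, i < j → k < l → i ≠ k → i ≠ l → j ≠ k → j ≠ l →
      Disjoint (F i j) (F k l)) : False := by
  set h := Complex.orthonormalBasisOneI.repr.symm.toHomeomorph with hh
  refine not_K5_joined (fun i => h (c i)) (fun i j => h '' (F i j)) (fun i j hij => ?_)
    (fun i j k l hij hkl hik hil hjk hjl => ?_)
  · obtain ⟨p, hp⟩ := hF i j hij
    exact ⟨p.map h.continuous, fun t => ⟨p t, hp t, rfl⟩⟩
  · exact (Set.disjoint_image_iff h.injective).mpr (hdisj i j k l hij hkl hik hil hjk hjl)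

variable {V : Type*} {G : SimpleGraph V} (D : Drawing G)

/-- The nodes of the planarisation: the vertices and the crossing points. -/
def Drawing.nodes : Set Plane := Set.range D.pos ∪ Prod.snd '' D.crossings

theorem Drawing.nodes_finite [Finite V] (h : D.crossings.Finite) : D.nodes.Finite :=
  (Set.finite_range _).union (h.image _)

/-- `[s, t]` is an elementary interval of the edge `e`: no node lies strictly between. -/
def Drawing.Elem (e : Sym2 V) (s t : I) : Prop :=
  e ∈ G.edgeSet ∧ s < t ∧ ∀ r, s < r → r < t → D.arc e r ∉ D.nodes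

/-- The union of the nodes in `S` and of the elementary arcs with both ends in `S`. -/
def Drawing.region (S : Set Plane) : Set Plane :=
  S ∪ {z | ∃ e s t, D.Elem e s t ∧ D.arc e s ∈ S ∧ D.arc e t ∈ S ∧
    ∃ r, s ≤ r ∧ r ≤ t ∧ D.arc e r = z}

theorem Drawing.arc_ne_zero_mem {e : Sym2 V} (he : e ∈ G.edgeSet) (v : V) {t : I}
    (h : D.arc e t = D.pos v) : t = 0 ∨ t = 1 := by
  by_contra hcon
  push Not at hcon
  exact D.arc_avoids e he t hcon.1 hcon.2 v h

theorem Drawing.region_disjoint {S T : Set Plane} (hS : S ⊆ D.nodes) (hT : T ⊆ D.nodes)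
    (hST : Disjoint S T) : Disjoint (D.region S) (D.region T) := by
  -- a node in a region belongs to the set
  have hnode : ∀ {S : Set Plane}, ∀ z ∈ D.region S, z ∈ D.nodes → z ∈ S := by
    rintro S z (hz | ⟨e, s, t, he, hs, ht, r, hsr, hrt, rfl⟩) hzn
    · exact hz
    · rcases hsr.lt_or_eq with h1 | rfl
      · rcases hrt.lt_or_eq with h2 | rfl
        · exact absurd hzn (he.2.2 r h1 h2)
        · exact ht
      · exact hs
  rw [Set.disjoint_left]
  intro z hzS hzT
  by_cases hzn : z ∈ D.nodes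
  · exact Set.disjoint_left.mp hST (hnode z hzS hzn) (hnode z hzT hzn)
  rcases hzS with hz | ⟨e, s, t, he, hs, ht, r, hsr, hrt, hr⟩
  · exact hzn (hS hz)
  rcases hzT with hz | ⟨e', s', t', he', hs', ht', r', hsr', hrt', hr'⟩
  · exact hzn (hT hz)
  have h1 : s < r := lt_of_le_of_ne hsr (fun h => hzn (hr ▸ h ▸ hS hs))
  have h2 : r < t := lt_of_le_of_ne hrt (fun h => hzn (hr ▸ h ▸ hS ht))
  have h1' : s' < r' := lt_of_le_of_ne hsr' (fun h => hzn (hr' ▸ h ▸ hT hs'))
  have h2' : r' < t' := lt_of_le_of_ne hrt' (fun h => hzn (hr' ▸ h ▸ hT ht'))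
  by_cases hee : e = e'
  · subst hee
    have hrr : r = r' := D.arc_injective e he.1 (hr.trans hr'.symm)
    subst hrr
    -- the two intervals coincide
    rcases lt_trichotomy s s' with h | h | h
    · exact he.2.2 s' h (h1'.trans h2) (hT hs')
    · subst h
      exact Set.disjoint_left.mp hST hs hs'
    · exact he'.2.2 s h (h1.trans h2') (hS hs)
  · apply hzn
    right
    refine ⟨(s(e, e'), z), ⟨by simpa using hee, ?_⟩, rfl⟩
    intro f hf
    rw [Sym2.mem_iff] at hf
    have h0 : ∀ {a b : I}, a < b → b ≠ 0 := fun {a b} hab hb =>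
      absurd (hb ▸ hab) (not_lt.mpr (unitInterval.nonneg' (t := a)))
    have h1'' : ∀ {a b : I}, a < b → a ≠ 1 := fun {a b} hab ha =>
      absurd (ha ▸ hab) (not_lt.mpr (unitInterval.le_one' (t := b)))
    rcases hf with rfl | rfl
    · exact ⟨he.1, r, h0 h1, h1'' h2, hr⟩
    · exact ⟨he'.1, r', h0 h1', h1'' h2', hr'⟩

/-- The planarisation graph: nodes are adjacent if they are the ends of an elementary interval. -/
def Drawing.planarGraph : SimpleGraph D.nodes where
  Adj x y := ∃ e s t, D.Elem e s t ∧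
    ((D.arc e s = x ∧ D.arc e t = y) ∨ (D.arc e s = y ∧ D.arc e t = x))
  symm := ⟨fun _ _ ⟨e, s, t, h, h'⟩ => ⟨e, s, t, h, h'.symm⟩⟩
  loopless := ⟨fun x ⟨e, s, t, h, h'⟩ => by
    rcases h' with h' | h' <;>
    exact h.2.1.ne (D.arc_injective e h.1 (h'.1.trans h'.2.symm))⟩

theorem Drawing.joinedIn_of_adj {S : Set Plane} {x y : D.nodes} (hxy : D.planarGraph.Adj x y)
    (hx : (x : Plane) ∈ S) (hy : (y : Plane) ∈ S) : JoinedIn (D.region S) (x : Plane) y := by
  obtain ⟨e, s, t, h, h'⟩ := hxy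
  have key : D.arc e s ∈ S → D.arc e t ∈ S → JoinedIn (D.region S) (D.arc e s) (D.arc e t) := by
    intro hs ht
    set p : Path (D.arc e 0) (D.arc e 1) := ⟨D.arc e, rfl, rfl⟩ with hp
    refine ⟨p.subpath s t, fun r => ?_⟩
    have h1 : p.subpath s t r ∈ Set.range (p.subpath s t) := ⟨r, rfl⟩
    rw [Path.range_subpath_of_le _ _ _ h.2.1.le] at h1
    obtain ⟨r', hr', hr''⟩ := h1
    right
    exact ⟨e, s, t, h, hs, ht, r', hr'.1, hr'.2, hr''⟩
  rcases h' with ⟨h1, h2⟩ | ⟨h1, h2⟩
  · rw [← h1, ← h2]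
    exact key (h1 ▸ hx) (h2 ▸ hy)
  · rw [← h1, ← h2]
    exact (key (h1 ▸ hy) (h2 ▸ hx)).symm

theorem Drawing.joinedIn_of_conn [Fintype D.nodes] {B : Finset D.nodes}
    (hB : Conn D.planarGraph B) {S : Set Plane} (hS : ∀ x ∈ B, (x : Plane) ∈ S)
    {x y : D.nodes} (hx : x ∈ B) (hy : y ∈ B) : JoinedIn (D.region S) (x : Plane) y := by
  have key : ∀ y, Relation.ReflTransGen (fun a b => D.planarGraph.Adj a b ∧ b ∈ B) x y →
      JoinedIn (D.region S) (x : Plane) y ∧ y ∈ B := by
    intro y h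
    induction h with
    | refl => exact ⟨JoinedIn.refl (Or.inl (hS x hx)), hx⟩
    | tail _ hbc ih =>
      exact ⟨ih.1.trans (D.joinedIn_of_adj hbc.1 (hS _ ih.2) (hS _ hbc.2)), hbc.2⟩
  exact (key y (hB.2 x hx y hy)).1

/-- **The planarisation has no `K₅` model.** -/
theorem Drawing.not_hasK5Model [Fintype D.nodes] : ¬ HasK5Model D.planarGraph := by
  rintro ⟨B, hconn, hdisj, hadj⟩
  choose c hc using fun i => (hconn i).1
  set S : Fin 5 → Set Plane := fun i => {z | ∃ x ∈ B i, (x : Plane) = z} with hS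
  have hSn : ∀ i, S i ⊆ D.nodes := by
    rintro i z ⟨x, _, rfl⟩
    exact x.2
  have hSd : ∀ i j, i ≠ j → Disjoint (S i) (S j) := by
    intro i j hij
    rw [Set.disjoint_left]
    rintro z ⟨x, hx, rfl⟩ ⟨y, hy, hxy⟩
    have : y = x := Subtype.ext hxy
    subst this
    exact Finset.disjoint_left.mp (hdisj i j hij) hx hy
  refine not_K5_plane (fun i => (c i : Plane)) (fun i j => D.region (S i ∪ S j))
    (fun i j hij => ?_) (fun i j k l hij hkl hik hil hjk hjl => ?_)
  · obtain ⟨x, hx, y, hy, hxy⟩ := hadj i j hij.ne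
    have hi : ∀ x ∈ B i, (x : Plane) ∈ S i ∪ S j := fun x hx => Or.inl ⟨x, hx, rfl⟩
    have hj : ∀ x ∈ B j, (x : Plane) ∈ S i ∪ S j := fun x hx => Or.inr ⟨x, hx, rfl⟩
    exact ((D.joinedIn_of_conn (hconn i) hi (hc i) hx).trans
      (D.joinedIn_of_adj hxy (hi x hx) (hj y hy))).trans
      (D.joinedIn_of_conn (hconn j) hj hy (hc j))
  · apply D.region_disjoint (Set.union_subset (hSn i) (hSn j)) (Set.union_subset (hSn k) (hSn l))
    rw [Set.disjoint_union_left, Set.disjoint_union_right, Set.disjoint_union_right]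
    exact ⟨⟨hSd i k hik, hSd i l hil⟩, ⟨hSd j k hjk, hSd j l hjl⟩⟩

end Pool.Agent.helper15.Crossing
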