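import Mathlib

/-!
# Separators in graphs without a `K₅` minor, with vertex costs

A version with costs of the Alon-Seymour-Thomas separator theorem for graphs without a `K₅` minor.
-/

set_option autoImplicit false
set_option linter.unusedSectionVars false

namespace Pool.Agent.helper15.Crossing

open Finset Classical

variable {P : Type*} [Fintype P]

/-- `S` is nonempty and any two of its members are joined by a path of `H` inside `S`. -/
def Conn (H : SimpleGraph P) (S : Finset P) : Prop :=
  S.Nonempty ∧ ∀ u ∈ S, ∀ v ∈ S, Relation.ReflTransGen (fun a b => H.Adj a b ∧ b ∈ S) u v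

/-- The vertices that can be reached from `u` without entering `X`. -/
noncomputable def comp (H : SimpleGraph P) (X : Finset P) (u : P) : Finset P :=
  univ.filter fun v => Relation.ReflTransGen (fun a b => H.Adj a b ∧ b ∉ X) u v

theorem mem_comp {H : SimpleGraph P} {X : Finset P} {u v : P} :
    v ∈ comp H X u ↔ Relation.ReflTransGen (fun a b => H.Adj a b ∧ b ∉ X) u v := by
  simp [comp]

theorem self_mem_comp (H : SimpleGraph P) (X : Finset P) (u : P) : u ∈ comp H X u :=
  mem_comp.mpr Relation.ReflTransGen.refl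

/-- Closure under paths: if `S` is closed under steps satisfying `p`, it is closed under paths. -/
theorem closed_of_step {p : P → P → Prop} {S : Set P}
    (h : ∀ a b, a ∈ S → p a b → b ∈ S) {u v : P} (hu : u ∈ S)
    (huv : Relation.ReflTransGen p u v) : v ∈ S := by
  induction huv with
  | refl => exact hu
  | tail _ hbc ih => exact h _ _ ih hbc

theorem comp_disjoint {H : SimpleGraph P} {X : Finset P} {u : P} (hu : u ∉ X) :
    Disjoint (comp H X u) X := by
  rw [Finset.disjoint_left]
  intro v hv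
  exact closed_of_step (S := {v | v ∉ X}) (fun a b _ hab => hab.2) hu (mem_comp.mp hv)

theorem comp_closed {H : SimpleGraph P} {X : Finset P} {u a b : P} (ha : a ∈ comp H X u)
    (hab : H.Adj a b) (hb : b ∉ X) : b ∈ comp H X u :=
  mem_comp.mpr ((mem_comp.mp ha).tail ⟨hab, hb⟩)

theorem comp_symm {H : SimpleGraph P} {X : Finset P} {u v : P} (hu : u ∉ X)
    (hv : v ∈ comp H X u) : u ∈ comp H X v := by
  have h := mem_comp.mp hv
  rw [mem_comp]
  have key : ∀ v, Relation.ReflTransGen (fun a b => H.Adj a b ∧ b ∉ X) u v →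
      v ∉ X ∧ Relation.ReflTransGen (fun a b => H.Adj a b ∧ b ∉ X) v u := by
    intro v h
    induction h with
    | refl => exact ⟨hu, Relation.ReflTransGen.refl⟩
    | tail _ hbc ih => exact ⟨hbc.2, Relation.ReflTransGen.head ⟨hbc.1.symm, ih.1⟩ ih.2⟩
  exact (key v h).2

theorem comp_trans {H : SimpleGraph P} {X : Finset P} {u v w : P} (hv : v ∈ comp H X u)
    (hw : w ∈ comp H X v) : w ∈ comp H X u :=
  mem_comp.mpr ((mem_comp.mp hv).trans (mem_comp.mp hw))

theorem comp_conn {H : SimpleGraph P} {X : Finset P} {u : P} (hu : u ∉ X) :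
    Conn H (comp H X u) := by
  refine ⟨⟨u, self_mem_comp H X u⟩, fun a ha b hb => ?_⟩
  have hau : a ∉ X := Finset.disjoint_left.mp (comp_disjoint hu) ha
  have h : b ∈ comp H X a := comp_trans (comp_symm hu ha) hb
  -- the path from `a` to `b` stays in the component
  have key : ∀ b, Relation.ReflTransGen (fun a b => H.Adj a b ∧ b ∉ X) a b →
      Relation.ReflTransGen (fun x y => H.Adj x y ∧ y ∈ comp H X u) a b ∧ b ∈ comp H X u := by
    intro b h
    induction h with
    | refl => exact ⟨Relation.ReflTransGen.refl, ha⟩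
    | tail _ hbc ih =>
      have := comp_closed ih.2 hbc.1 hbc.2
      exact ⟨ih.1.tail ⟨hbc.1, this⟩, this⟩
  exact (key b (mem_comp.mp h)).1

theorem Conn.subset_comp {H : SimpleGraph P} {F X : Finset P} {u : P} (hF : Conn H F)
    (hd : Disjoint F X) (hu : u ∈ F) : F ⊆ comp H X u := by
  intro v hv
  rw [mem_comp]
  exact Relation.ReflTransGen.mono (fun a b hab => ⟨hab.1, Finset.disjoint_left.mp hd hab.2⟩)
    _ _ (hF.2 u hu v hv)

theorem Conn.of_forall {H : SimpleGraph P} {S : Finset P} {u : P} (hu : u ∈ S)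
    (h : ∀ v ∈ S, Relation.ReflTransGen (fun a b => H.Adj a b ∧ a ∈ S ∧ b ∈ S) u v) :
    Conn H S := by
  refine ⟨⟨u, hu⟩, fun a ha b hb => ?_⟩
  have hsymm : Std.Symm (fun a b => H.Adj a b ∧ a ∈ S ∧ b ∈ S) :=
    ⟨fun a b hab => ⟨hab.1.symm, hab.2.2, hab.2.1⟩⟩
  have h1 : Relation.ReflTransGen (fun a b => H.Adj a b ∧ a ∈ S ∧ b ∈ S) a u :=
    (Relation.ReflTransGen.stdSymm (r := fun a b => H.Adj a b ∧ a ∈ S ∧ b ∈ S)).symm _ _ (h a ha)
  exact Relation.ReflTransGen.mono (fun a b hab => ⟨hab.1, hab.2.2⟩) _ _ (h1.trans (h b hb))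

theorem conn_singleton (H : SimpleGraph P) (u : P) : Conn H {u} := by
  refine ⟨⟨u, by simp⟩, fun a ha b hb => ?_⟩
  rw [Finset.mem_singleton] at ha hb
  rw [ha, hb]

theorem Conn.insert {H : SimpleGraph P} {S : Finset P} {u v : P} (hS : Conn H S) (hu : u ∈ S)
    (huv : H.Adj u v) : Conn H (Insert.insert v S) := by
  apply Conn.of_forall (u := u) (by simp [hu])
  intro w hw
  rw [Finset.mem_insert] at hw
  have key : ∀ w, Relation.ReflTransGen (fun a b => H.Adj a b ∧ b ∈ S) u w →
      Relation.ReflTransGen (fun a b => H.Adj a b ∧ a ∈ Insert.insert v S ∧ b ∈ Insert.insert v S) u w ∧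
        w ∈ S := by
    intro w h
    induction h with
    | refl => exact ⟨Relation.ReflTransGen.refl, hu⟩
    | tail _ hbc ih =>
      exact ⟨ih.1.tail ⟨hbc.1, by simp [ih.2], by simp [hbc.2]⟩, hbc.2⟩
  rcases hw with rfl | hw
  · exact Relation.ReflTransGen.single ⟨huv, by simp [hu], by simp⟩
  · exact (key w (hS.2 u hu w hw)).1

section TreeOrCut

variable (H : SimpleGraph P) (c : P → ℕ) (U : Finset P) (A : ℕ → Finset P)

/-- `Reach i u n`: there is a walk inside `U` that meets `A 0, …, A i` in this order, ends at `u`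
and whose vertices have total cost `n`. -/
inductive Reach : ℕ → P → ℕ → Prop
  | start {u : P} : u ∈ U → u ∈ A 0 → Reach 0 u (c u)
  | move {i : ℕ} {u v : P} {n : ℕ} : Reach i u n → H.Adj u v → v ∈ U → Reach i v (n + c v)
  | up {i : ℕ} {u : P} {n : ℕ} : Reach i u n → u ∈ A (i + 1) → Reach (i + 1) u n

theorem Reach.tree {i : ℕ} {u : P} {n : ℕ} (h : Reach H c U A i u n) :
    ∃ T : Finset P, Conn H T ∧ T ⊆ U ∧ u ∈ T ∧ ∑ x ∈ T, c x ≤ n ∧
      ∀ j ≤ i, ¬ Disjoint T (A j) := by
  induction h with
  | @start u hU h0 =>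
    refine ⟨{u}, conn_singleton H u, by simpa using hU, by simp, by simp, fun j hj => ?_⟩
    obtain rfl : j = 0 := by omega
    simpa using h0
  | @move i u v n _ hadj hU ih =>
    obtain ⟨T, hT, hTU, huT, hcost, hA⟩ := ih
    refine ⟨insert v T, hT.insert huT hadj, Finset.insert_subset hU hTU, by simp, ?_,
      fun j hj hd => hA j hj (Finset.disjoint_of_subset_left (Finset.subset_insert _ _) hd)⟩
    by_cases hv : v ∈ T
    · rw [Finset.insert_eq_of_mem hv]
      omega
    · rw [Finset.sum_insert hv]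
      omega
  | @up i u n _ hA1 ih =>
    obtain ⟨T, hT, hTU, huT, hcost, hA⟩ := ih
    refine ⟨T, hT, hTU, huT, hcost, fun j hj => ?_⟩
    rcases Nat.lt_or_ge i j with h | h
    · obtain rfl : j = i + 1 := by omega
      exact fun hd => Finset.disjoint_left.mp hd huT hA1
    · exact hA j h

/-- Vertices that can be reached at level `i` within budget `n`. -/
def ReachLe (i n : ℕ) (u : P) : Prop := ∃ m ≤ n, Reach H c U A i u m

theorem ReachLe.mono {i n n' : ℕ} {u : P} (h : ReachLe H c U A i n u) (hn : n ≤ n') :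
    ReachLe H c U A i n' u := by
  obtain ⟨m, hm, h⟩ := h
  exact ⟨m, hm.trans hn, h⟩

/-- The `n`-th level set. -/
noncomputable def levelSet (k n : ℕ) : Finset P :=
  U.filter fun u => ∃ i < k, ¬ ReachLe H c U A i n u ∧ ReachLe H c U A i (n + c u) u

theorem spread {k n i : ℕ} (hi : i < k) {F : Finset P} (hF : Conn H F) (hFU : F ⊆ U)
    (hd : Disjoint F (levelSet H c U A k n)) {a : P} (ha : a ∈ F)
    (hR : ReachLe H c U A i (n + c a) a) : ∀ v ∈ F, ReachLe H c U A i n v := by
  have hno : ∀ v ∈ F, ReachLe H c U A i (n + c v) v → ReachLe H c U A i n v := by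
    intro v hv h
    by_contra hn
    exact Finset.disjoint_left.mp hd hv (by
      simp only [levelSet, Finset.mem_filter]
      exact ⟨hFU hv, i, hi, hn, h⟩)
  intro v hv
  have key : ∀ v, Relation.ReflTransGen (fun a b => H.Adj a b ∧ b ∈ F) a v →
      ReachLe H c U A i n v := by
    intro v h
    induction h with
    | refl => exact hno a ha hR
    | @tail x y _ hbc ih =>
      apply hno y hbc.2
      obtain ⟨m, hm, h⟩ := ih
      exact ⟨m + c y, by omega, h.move hbc.1 (hFU hbc.2)⟩
  exact key v (hF.2 a ha v hv)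

theorem levelSet_separates {k n : ℕ} {F : Finset P} (hF : Conn H F) (hFU : F ⊆ U)
    (hd : Disjoint F (levelSet H c U A k n)) (hA : ∀ i < k, ¬ Disjoint F (A i)) :
    ∀ i < k, ∀ v ∈ F, ReachLe H c U A i n v := by
  intro i
  induction i with
  | zero =>
    intro hi
    obtain ⟨a, haF, haA⟩ := Finset.not_disjoint_iff.mp (hA 0 hi)
    exact spread H c U A hi hF hFU hd haF ⟨c a, by omega, Reach.start (hFU haF) haA⟩
  | succ i ih =>
    intro hi
    obtain ⟨a, haF, haA⟩ := Finset.not_disjoint_iff.mp (hA (i + 1) hi)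
    obtain ⟨m, hm, h⟩ := ih (by omega) a haF
    exact spread H c U A hi hF hFU hd haF ⟨m, by omega, h.up haA⟩

theorem card_levels (i r : ℕ) (u : P) :
    ((range r).filter fun n => ¬ ReachLe H c U A i n u ∧ ReachLe H c U A i (n + c u) u).card
      ≤ c u := by
  by_cases hex : ∃ m, ReachLe H c U A i m u
  · have hmin := Nat.find_spec hex
    set m₀ := Nat.find hex with hm₀
    calc _ ≤ (Finset.Ico (m₀ - c u) m₀).card := by
          apply Finset.card_le_card
          intro n hn
          rw [Finset.mem_filter] at hn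
          rw [Finset.mem_Ico]
          have h1 : n < m₀ := by
            by_contra hlt
            exact hn.2.1 (hmin.mono _ _ _ _ (by omega))
          have h2 : m₀ ≤ n + c u := Nat.find_min' hex hn.2.2
          omega
      _ ≤ c u := by
          rw [Nat.card_Ico]
          omega
  · push Not at hex
    rw [Finset.filter_false_of_mem]
    · simp
    · intro n _ h
      exact hex _ h.2

theorem sum_levelSet_le (k r : ℕ) :
    ∑ n ∈ range r, ∑ x ∈ levelSet H c U A k n, c x ≤ k * ∑ x ∈ U, c x ^ 2 := by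
  calc ∑ n ∈ range r, ∑ x ∈ levelSet H c U A k n, c x
      ≤ ∑ n ∈ range r, ∑ x ∈ U, ∑ i ∈ range k,
          (if ¬ ReachLe H c U A i n x ∧ ReachLe H c U A i (n + c x) x then c x else 0) := by
        refine Finset.sum_le_sum fun n _ => ?_
        unfold levelSet
        rw [Finset.sum_filter]
        refine Finset.sum_le_sum fun x _ => ?_
        split_ifs with h
        · obtain ⟨i, hi, h1⟩ := h
          calc c x = (if ¬ ReachLe H c U A i n x ∧ ReachLe H c U A i (n + c x) x then c x
                else 0) := by rw [if_pos h1]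
            _ ≤ _ := Finset.single_le_sum (f := fun i =>
                (if ¬ ReachLe H c U A i n x ∧ ReachLe H c U A i (n + c x) x then c x else 0))
                (fun _ _ => Nat.zero_le _) (Finset.mem_range.mpr hi)
        · exact Nat.zero_le _
    _ = ∑ x ∈ U, ∑ i ∈ range k, ∑ n ∈ range r,
          (if ¬ ReachLe H c U A i n x ∧ ReachLe H c U A i (n + c x) x then c x else 0) := by
        rw [Finset.sum_comm]
        refine Finset.sum_congr rfl fun x _ => ?_
        rw [Finset.sum_comm]
    _ ≤ ∑ x ∈ U, ∑ i ∈ range k, c x ^ 2 := by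
        refine Finset.sum_le_sum fun x _ => Finset.sum_le_sum fun i _ => ?_
        rw [← Finset.sum_filter, Finset.sum_const, smul_eq_mul, pow_two]
        exact Nat.mul_le_mul_right _ (card_levels H c U A i r x)
    _ = k * ∑ x ∈ U, c x ^ 2 := by
        simp [Finset.mul_sum]

/-- Either there is a cheap connected set meeting all the sets `A i`, or a cheap set separates
them. -/
theorem tree_or_cut (k r : ℕ) (hk : 0 < k) :
    (∃ T : Finset P, Conn H T ∧ T ⊆ U ∧ ∑ x ∈ T, c x ≤ r ∧ ∀ i < k, ¬ Disjoint T (A i)) ∨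
    (∃ Z ⊆ U, r * ∑ x ∈ Z, c x ≤ k * ∑ x ∈ U, c x ^ 2 ∧
      ∀ F : Finset P, Conn H F → F ⊆ U → Disjoint F Z → ∃ i < k, Disjoint F (A i)) := by
  rcases Nat.eq_zero_or_pos r with rfl | hr
  · right
    refine ⟨U, subset_rfl, by simp, fun F hF hFU hd => ?_⟩
    obtain ⟨x, hx⟩ := hF.1
    exact absurd (hFU hx) (Finset.disjoint_left.mp hd hx)
  by_cases h : ∃ u m, m ≤ r ∧ Reach H c U A (k - 1) u m
  · left
    obtain ⟨u, m, hm, h⟩ := h
    obtain ⟨T, hT, hTU, _, hcost, hA⟩ := h.tree
    exact ⟨T, hT, hTU, hcost.trans hm, fun i hi => hA i (by omega)⟩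
  · right
    push Not at h
    have hn : ∃ n ∈ range r, r * ∑ x ∈ levelSet H c U A k n, c x ≤ k * ∑ x ∈ U, c x ^ 2 := by
      by_contra hcon
      push Not at hcon
      have h1 : ∑ n ∈ range r, (k * ∑ x ∈ U, c x ^ 2) <
          ∑ n ∈ range r, (r * ∑ x ∈ levelSet H c U A k n, c x) :=
        Finset.sum_lt_sum_of_nonempty (by simpa using hr.ne') hcon
      rw [Finset.sum_const, Finset.card_range, smul_eq_mul, ← Finset.mul_sum] at h1
      exact absurd (Nat.mul_le_mul_left r (sum_levelSet_le H c U A k r)) (not_le.mpr h1)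
    obtain ⟨n, hnr, hn⟩ := hn
    refine ⟨levelSet H c U A k n, Finset.filter_subset _ _, hn, fun F hF hFU hd => ?_⟩
    by_contra hcon
    push Not at hcon
    obtain ⟨x, hx⟩ := hF.1
    obtain ⟨m, hm, hR⟩ := levelSet_separates H c U A hF hFU hd hcon (k - 1) (by omega) x hx
    exact h x m (by have := Finset.mem_range.mp hnr; omega) hR

end TreeOrCut

end Pool.Agent.helper15.Crossing
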