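import Pool.Agent.helper15.Crossing.Sep

/-!
# The separator theorem for graphs without a `K₅` model
-/

set_option autoImplicit false
set_option linter.unusedSectionVars false

namespace Pool.Agent.helper15.Crossing

open Finset Classical

variable {P : Type*} [Fintype P]

/-- `H` has a model of `K₅`: five pairwise disjoint, pairwise adjacent connected sets. -/
def HasK5Model (H : SimpleGraph P) : Prop :=
  ∃ B : Fin 5 → Finset P, (∀ i, Conn H (B i)) ∧ (∀ i j, i ≠ j → Disjoint (B i) (B j)) ∧
    ∀ i j, i ≠ j → ∃ x ∈ B i, ∃ y ∈ B j, H.Adj x y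

theorem sum_union_le' (c : P → ℕ) (S T : Finset P) :
    ∑ x ∈ S ∪ T, c x ≤ ∑ x ∈ S, c x + ∑ x ∈ T, c x := by
  rw [← Finset.sum_union_inter]
  exact Nat.le_add_right _ _

theorem sum_biUnion_le' {ι : Type*} (c : P → ℕ) (I : Finset ι) (X : ι → Finset P) :
    ∑ x ∈ I.biUnion X, c x ≤ ∑ i ∈ I, ∑ x ∈ X i, c x := by
  induction I using Finset.induction_on with
  | empty => simp
  | insert a s ha ih =>
    rw [Finset.biUnion_insert, Finset.sum_insert ha]
    exact (sum_union_le' c _ _).trans (Nat.add_le_add_left ih _)

/-- The state of the construction: `I` is the set of branch sets found so far, `C i` the branch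
sets, `X i ⊆ C i` their active parts, `B` the heavy component avoiding the active parts. -/
structure State (H : SimpleGraph P) (c w : P → ℕ) (r : ℕ) where
  I : Finset (Fin 5)
  C : Fin 5 → Finset P
  X : Fin 5 → Finset P
  B : Finset P
  conn : ∀ i ∈ I, Conn H (C i)
  disj : ∀ i ∈ I, ∀ j ∈ I, i ≠ j → Disjoint (C i) (C j)
  adj : ∀ i ∈ I, ∀ j ∈ I, i ≠ j → ∃ x ∈ C i, ∃ y ∈ C j, H.Adj x y
  sub : ∀ i ∈ I, X i ⊆ C i
  cost : ∀ i ∈ I, ∑ x ∈ X i, c x ≤ r
  connB : Conn H B
  disjX : ∀ i ∈ I, Disjoint B (X i)
  closed : ∀ a ∈ B, ∀ b, H.Adj a b → (∀ i ∈ I, b ∉ X i) → b ∈ B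
  heavy : ∑ x, w x < 2 * ∑ x ∈ B, w x
  disjC : ∀ i ∈ I, Disjoint B (C i)

theorem heavy_inter {w : P → ℕ} {F B : Finset P} (hF : ∑ x, w x < 2 * ∑ x ∈ F, w x)
    (hB : ∑ x, w x < 2 * ∑ x ∈ B, w x) : ∃ u ∈ F, u ∈ B := by
  by_contra h
  push Not at h
  have hd : Disjoint F B := Finset.disjoint_left.mpr h
  have h1 : ∑ x ∈ F, w x + ∑ x ∈ B, w x ≤ ∑ x, w x := by
    rw [← Finset.sum_union hd]
    exact Finset.sum_le_sum_of_subset (Finset.subset_univ _)
  omega

theorem State.cost_le {H : SimpleGraph P} {c w : P → ℕ} {r : ℕ} (s : State H c w r) :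
    ∑ x ∈ s.I.biUnion s.X, c x ≤ s.I.card * r := by
  calc ∑ x ∈ s.I.biUnion s.X, c x ≤ ∑ i ∈ s.I, ∑ x ∈ s.X i, c x := sum_biUnion_le' _ _ _
    _ ≤ ∑ i ∈ s.I, r := Finset.sum_le_sum s.cost
    _ = s.I.card * r := by simp

/-- The component of a vertex of `B` avoiding a larger set stays in `B`. -/
theorem State.comp_sub {H : SimpleGraph P} {c w : P → ℕ} {r : ℕ} (s : State H c w r)
    {Y : Finset P} (hY : ∀ i ∈ s.I, s.X i ⊆ Y) {u : P} (hu : u ∈ s.B) : comp H Y u ⊆ s.B := by
  intro v hv
  exact closed_of_step (S := {v | v ∈ s.B})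
    (fun a b ha hab => s.closed a ha b hab.1 (fun i hi hb => hab.2 (hY i hi hb))) hu
    (mem_comp.mp hv)

theorem State.step {H : SimpleGraph P} {c w : P → ℕ} {r : ℕ} (hr : 5 * ∑ x, c x ^ 2 ≤ r ^ 2)
    (hsep : ∀ Z : Finset P, ∑ x ∈ Z, c x ≤ 5 * r →
      ∃ F : Finset P, Conn H F ∧ Disjoint F Z ∧ ∑ x, w x < 2 * ∑ x ∈ F, w x)
    (s : State H c w r) (hI : s.I ≠ univ) :
    ∃ s' : State H c w r, 6 * s'.B.card + s'.I.card < 6 * s.B.card + s.I.card := by
  have hIcard : s.I.card ≤ 4 := by
    have : s.I.card < (univ : Finset (Fin 5)).card :=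
      Finset.card_lt_card (Finset.ssubset_univ_iff.mpr hI)
    rw [Finset.card_univ, Fintype.card_fin] at this
    omega
  -- neighbours of the branch sets in `B`
  set N : Fin 5 → Finset P := fun i => s.B.filter fun x => ∃ y ∈ s.C i, H.Adj x y with hN
  by_cases hdrop : ∃ i ∈ s.I, N i = ∅
  · -- drop the branch set `i`
    obtain ⟨i, hi, hNi⟩ := hdrop
    have hlt : (s.I.erase i).card < s.I.card := Finset.card_erase_lt_of_mem hi
    refine ⟨⟨s.I.erase i, s.C, s.X, s.B, fun j hj => s.conn j (Finset.mem_of_mem_erase hj),
      fun j hj k hk => s.disj j (Finset.mem_of_mem_erase hj) k (Finset.mem_of_mem_erase hk),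
      fun j hj k hk => s.adj j (Finset.mem_of_mem_erase hj) k (Finset.mem_of_mem_erase hk),
      fun j hj => s.sub j (Finset.mem_of_mem_erase hj),
      fun j hj => s.cost j (Finset.mem_of_mem_erase hj), s.connB,
      fun j hj => s.disjX j (Finset.mem_of_mem_erase hj), ?_, s.heavy,
      fun j hj => s.disjC j (Finset.mem_of_mem_erase hj)⟩, by simp only; omega⟩
    intro a ha b hab hb
    apply s.closed a ha b hab
    intro j hj hbj
    by_cases hji : j = i
    · subst hji
      have : a ∈ N j := by
        simp only [hN, Finset.mem_filter]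
        exact ⟨ha, b, s.sub j hj hbj, hab⟩
      rw [hNi] at this
      simp at this
    · exact hb j (Finset.mem_erase.mpr ⟨hji, hj⟩) hbj
  push Not at hdrop
  -- the sets that the tree should meet
  set e := s.I.equivFin with he
  set A : ℕ → Finset P := fun n => if n = 0 then s.B else
    if h : n - 1 < s.I.card then N (e.symm ⟨n - 1, h⟩) else ∅ with hA
  have hA0 : A 0 = s.B := by simp [hA]
  have hAi : ∀ i (hi : i ∈ s.I), A ((e ⟨i, hi⟩ : ℕ) + 1) = N i := by
    intro i hi
    have h1 : (e ⟨i, hi⟩ : ℕ) < s.I.card := (e ⟨i, hi⟩).2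
    simp only [hA, Nat.add_eq_zero_iff, one_ne_zero, and_false, if_false, Nat.add_sub_cancel]
    rw [dif_pos h1]
    simp
  rcases tree_or_cut H c s.B A (s.I.card + 1) r (by omega) with
    ⟨T, hT, hTB, hTc, hTA⟩ | ⟨Z, hZB, hZc, hZ⟩
  · -- add a new branch set
    obtain ⟨j, hj⟩ : ∃ j, j ∉ s.I := by
      by_contra h
      push Not at h
      exact hI (Finset.eq_univ_iff_forall.mpr h)
    have hTN : ∀ i ∈ s.I, ∃ x ∈ T, x ∈ N i := by
      intro i hi
      have h1 := hTA ((e ⟨i, hi⟩ : ℕ) + 1) (by have := (e ⟨i, hi⟩).2; omega)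
      rw [hAi i hi] at h1
      exact Finset.not_disjoint_iff.mp h1
    -- the new separator
    have hcost : ∑ x ∈ s.I.biUnion s.X ∪ T, c x ≤ 5 * r := by
      calc ∑ x ∈ s.I.biUnion s.X ∪ T, c x ≤ ∑ x ∈ s.I.biUnion s.X, c x + ∑ x ∈ T, c x :=
            sum_union_le' _ _ _
        _ ≤ s.I.card * r + r := add_le_add s.cost_le hTc
        _ ≤ 4 * r + r := by gcongr
        _ = 5 * r := by ring
    obtain ⟨F, hF, hFd, hFw⟩ := hsep _ hcost
    obtain ⟨u, huF, huB⟩ := heavy_inter hFw s.heavy
    set Y := s.I.biUnion s.X ∪ T with hY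
    have huY : u ∉ Y := Finset.disjoint_left.mp hFd huF
    have hsubY : ∀ i ∈ s.I, s.X i ⊆ Y := fun i hi =>
      (Finset.subset_biUnion_of_mem s.X hi).trans Finset.subset_union_left
    have hTY : T ⊆ Y := Finset.subset_union_right
    have hB' : comp H Y u ⊆ s.B := s.comp_sub hsubY huB
    have hdY : Disjoint (comp H Y u) Y := comp_disjoint huY
    have hdT : Disjoint (comp H Y u) T := Finset.disjoint_of_subset_right hTY hdY
    have hlt : (comp H Y u).card < s.B.card := by
      apply Finset.card_lt_card
      refine Finset.ssubset_iff_subset_ne.mpr ⟨hB', fun heq => ?_⟩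
      obtain ⟨x, hx⟩ := hT.1
      exact Finset.disjoint_left.mp hdT (heq ▸ hTB hx) hx
    have hTC : ∀ i ∈ s.I, Disjoint T (s.C i) := fun i hi =>
      Finset.disjoint_of_subset_left hTB (s.disjC i hi)
    have hij : ∀ i ∈ s.I, i ≠ j := fun i hi h => hj (h ▸ hi)
    refine ⟨⟨insert j s.I, Function.update s.C j T, Function.update s.X j T, comp H Y u,
      ?_, ?_, ?_, ?_, ?_, comp_conn huY, ?_, ?_, ?_, ?_⟩, ?_⟩
    · intro i hi
      rcases Finset.mem_insert.mp hi with rfl | hi
      · simpa using hT
      · rw [Function.update_of_ne (hij i hi)]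
        exact s.conn i hi
    · intro i hi k hk hik
      rcases Finset.mem_insert.mp hi with hi | hi <;> rcases Finset.mem_insert.mp hk with hk | hk
      · exact absurd (hi.trans hk.symm) hik
      · rw [hi, Function.update_self, Function.update_of_ne (hij k hk)]
        exact hTC k hk
      · rw [hk, Function.update_self, Function.update_of_ne (hij i hi)]
        exact (hTC i hi).symm
      · rw [Function.update_of_ne (hij i hi), Function.update_of_ne (hij k hk)]
        exact s.disj i hi k hk hik
    · intro i hi k hk hik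
      rcases Finset.mem_insert.mp hi with hi | hi <;> rcases Finset.mem_insert.mp hk with hk | hk
      · exact absurd (hi.trans hk.symm) hik
      · rw [hi, Function.update_self, Function.update_of_ne (hij k hk)]
        obtain ⟨x, hx, hxN⟩ := hTN k hk
        simp only [hN, Finset.mem_filter] at hxN
        obtain ⟨_, y, hy, hxy⟩ := hxN
        exact ⟨x, hx, y, hy, hxy⟩
      · rw [hk, Function.update_self, Function.update_of_ne (hij i hi)]
        obtain ⟨x, hx, hxN⟩ := hTN i hi
        simp only [hN, Finset.mem_filter] at hxN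
        obtain ⟨_, y, hy, hxy⟩ := hxN
        exact ⟨y, hy, x, hx, hxy.symm⟩
      · rw [Function.update_of_ne (hij i hi), Function.update_of_ne (hij k hk)]
        exact s.adj i hi k hk hik
    · intro i hi
      rcases Finset.mem_insert.mp hi with rfl | hi
      · simp
      · rw [Function.update_of_ne (hij i hi), Function.update_of_ne (hij i hi)]
        exact s.sub i hi
    · intro i hi
      rcases Finset.mem_insert.mp hi with rfl | hi
      · simpa using hTc
      · rw [Function.update_of_ne (hij i hi)]
        exact s.cost i hi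
    · intro i hi
      rcases Finset.mem_insert.mp hi with rfl | hi
      · simpa using hdT
      · rw [Function.update_of_ne (hij i hi)]
        exact Finset.disjoint_of_subset_right (hsubY i hi) hdY
    · intro a ha b hab hb
      apply comp_closed ha hab
      intro hbY
      rcases Finset.mem_union.mp hbY with h | h
      · obtain ⟨i, hi, hbi⟩ := Finset.mem_biUnion.mp h
        have := hb i (Finset.mem_insert_of_mem hi)
        rw [Function.update_of_ne (hij i hi)] at this
        exact this hbi
      · have := hb j (Finset.mem_insert_self _ _)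
        rw [Function.update_self] at this
        exact this h
    · calc ∑ x, w x < 2 * ∑ x ∈ F, w x := hFw
        _ ≤ 2 * ∑ x ∈ comp H Y u, w x :=
          Nat.mul_le_mul_left 2 (Finset.sum_le_sum_of_subset (hF.subset_comp hFd huF))
    · intro i hi
      rcases Finset.mem_insert.mp hi with rfl | hi
      · simpa using hdT
      · rw [Function.update_of_ne (hij i hi)]
        exact Finset.disjoint_of_subset_left hB' (s.disjC i hi)
    · simp only [Finset.card_insert_of_notMem hj]
      omega
  · -- the cut
    have hZr : ∑ x ∈ Z, c x ≤ r := by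
      rcases Nat.eq_zero_or_pos r with rfl | hrpos
      · have h0 : ∀ x, c x = 0 := by
          intro x
          have h1 : c x ^ 2 ≤ ∑ x, c x ^ 2 :=
            Finset.single_le_sum (f := fun x => c x ^ 2) (fun _ _ => Nat.zero_le _)
              (Finset.mem_univ x)
          have h2 : c x ^ 2 = 0 := by
            have : (0 : ℕ) ^ 2 = 0 := rfl
            omega
          exact pow_eq_zero_iff (two_ne_zero) |>.mp h2
        simp [h0]
      · have h1 : r * ∑ x ∈ Z, c x ≤ r * r := by
          calc r * ∑ x ∈ Z, c x ≤ (s.I.card + 1) * ∑ x ∈ s.B, c x ^ 2 := hZc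
            _ ≤ 5 * ∑ x, c x ^ 2 :=
              Nat.mul_le_mul (by omega) (Finset.sum_le_sum_of_subset (Finset.subset_univ _))
            _ ≤ r * r := by rw [← pow_two]; exact hr
        exact Nat.le_of_mul_le_mul_left h1 hrpos
    have hcost : ∑ x ∈ s.I.biUnion s.X ∪ Z, c x ≤ 5 * r := by
      calc ∑ x ∈ s.I.biUnion s.X ∪ Z, c x ≤ ∑ x ∈ s.I.biUnion s.X, c x + ∑ x ∈ Z, c x :=
            sum_union_le' _ _ _
        _ ≤ s.I.card * r + r := add_le_add s.cost_le hZr
        _ ≤ 4 * r + r := by gcongr
        _ = 5 * r := by ring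
    obtain ⟨F, hF, hFd, hFw⟩ := hsep _ hcost
    obtain ⟨u, huF, huB⟩ := heavy_inter hFw s.heavy
    set Y := s.I.biUnion s.X ∪ Z with hY
    have huY : u ∉ Y := Finset.disjoint_left.mp hFd huF
    have hsubY : ∀ i ∈ s.I, s.X i ⊆ Y := fun i hi =>
      (Finset.subset_biUnion_of_mem s.X hi).trans Finset.subset_union_left
    set B0 := comp H Y u with hB0
    have hB0B : B0 ⊆ s.B := s.comp_sub hsubY huB
    have hdY : Disjoint B0 Y := comp_disjoint huY
    have hB0Z : Disjoint B0 Z := Finset.disjoint_of_subset_right Finset.subset_union_right hdY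
    have hB0conn : Conn H B0 := comp_conn huY
    -- the branch set which is cut off
    obtain ⟨i, hi, hB0N⟩ : ∃ i ∈ s.I, Disjoint B0 (N i) := by
      obtain ⟨n, hn, hd⟩ := hZ B0 hB0conn hB0B hB0Z
      rcases Nat.eq_zero_or_pos n with rfl | hpos
      · rw [hA0] at hd
        exact absurd (hB0B (self_mem_comp H Y u))
          (Finset.disjoint_left.mp hd (self_mem_comp H Y u))
      · have h1 : n - 1 < s.I.card := by omega
        refine ⟨e.symm ⟨n - 1, h1⟩, (e.symm ⟨n - 1, h1⟩).2, ?_⟩
        have h2 : A n = N (e.symm ⟨n - 1, h1⟩) := by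
          simp only [hA]
          rw [if_neg (by omega), dif_pos h1]
        rwa [h2] at hd
    obtain ⟨y0, hy0⟩ := (s.conn i hi).1
    -- `K` is the component of `C i` in `(B \ B0) ∪ C i`
    set V' : Finset P := (s.B \ B0) ∪ s.C i with hV'
    set K := comp H V'ᶜ y0 with hK
    have hy0V : y0 ∉ V'ᶜ := by
      rw [Finset.mem_compl, not_not]
      exact Finset.mem_union_right _ hy0
    have hKV : K ⊆ V' := by
      intro x hx
      have := Finset.disjoint_left.mp (comp_disjoint hy0V) hx
      rwa [Finset.mem_compl, not_not] at this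
    have hCK : s.C i ⊆ K := by
      apply (s.conn i hi).subset_comp _ hy0
      rw [Finset.disjoint_left]
      intro x hx
      rw [Finset.mem_compl, not_not]
      exact Finset.mem_union_right _ hx
    have hKclosed : ∀ a ∈ K, ∀ b ∈ V', H.Adj a b → b ∈ K := by
      intro a ha b hb hab
      exact comp_closed ha hab (by rw [Finset.mem_compl, not_not]; exact hb)
    have hKj : ∀ j ∈ s.I, j ≠ i → Disjoint K (s.C j) := by
      intro j hj hji
      rw [Finset.disjoint_left]
      intro x hx hxj
      rcases Finset.mem_union.mp (hKV hx) with h | h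
      · exact Finset.disjoint_left.mp (s.disjC j hj) (Finset.sdiff_subset h) hxj
      · exact Finset.disjoint_left.mp (s.disj i hi j hj hji.symm) h hxj
    -- the new active part
    set X' : Finset P := Z ∩ K with hX'
    set Y' : Finset P := ((s.I.erase i).biUnion s.X) ∪ X' with hY'
    have hY'Y : Y' ⊆ Y := by
      apply Finset.union_subset_union
      · exact Finset.biUnion_subset_biUnion_of_subset_left _ (Finset.erase_subset _ _)
      · exact Finset.inter_subset_left
    have huY' : u ∉ Y' := fun h => huY (hY'Y h)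
    -- the new component stays in `B \ K`
    have hstay : ∀ v ∈ comp H Y' u, v ∈ s.B ∧ v ∉ K := by
      intro v hv
      refine closed_of_step (S := {v | v ∈ s.B ∧ v ∉ K}) ?_ ?_ (mem_comp.mp hv)
      · rintro a b ⟨haB, haK⟩ ⟨hab, hbY'⟩
        have hbK : b ∉ K := by
          intro hbK
          by_cases haB0 : a ∈ B0
          · rcases Finset.mem_union.mp (hKV hbK) with h | h
            · rw [Finset.mem_sdiff] at h
              have hbY : b ∈ Y := by
                by_contra hbY
                exact h.2 (comp_closed haB0 hab hbY)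
              rcases Finset.mem_union.mp hbY with h' | h'
              · obtain ⟨j, hj, hbj⟩ := Finset.mem_biUnion.mp h'
                exact Finset.disjoint_left.mp (s.disjX j hj) h.1 hbj
              · exact hbY' (Finset.mem_union_right _ (Finset.mem_inter.mpr ⟨h', hbK⟩))
            · apply Finset.disjoint_left.mp hB0N haB0
              simp only [hN, Finset.mem_filter]
              exact ⟨haB, b, h, hab⟩
          · exact haK (hKclosed b hbK a (Finset.mem_union_left _
              (Finset.mem_sdiff.mpr ⟨haB, haB0⟩)) hab.symm)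
        refine ⟨s.closed a haB b hab (fun j hj hbj => ?_), hbK⟩
        by_cases hji : j = i
        · subst hji
          exact hbK (hCK (s.sub j hj hbj))
        · exact hbY' (Finset.mem_union_left _ (Finset.mem_biUnion.mpr
            ⟨j, Finset.mem_erase.mpr ⟨hji, hj⟩, hbj⟩))
      · refine ⟨huB, fun huK => ?_⟩
        rcases Finset.mem_union.mp (hKV huK) with h | h
        · exact (Finset.mem_sdiff.mp h).2 (self_mem_comp H Y u)
        · exact Finset.disjoint_left.mp (s.disjC i hi) huB h
    have hB'B : comp H Y' u ⊆ s.B := fun v hv => (hstay v hv).1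
    have hB'K : Disjoint (comp H Y' u) K := Finset.disjoint_left.mpr fun v hv => (hstay v hv).2
    have hlt : (comp H Y' u).card < s.B.card := by
      apply Finset.card_lt_card
      refine Finset.ssubset_iff_subset_ne.mpr ⟨hB'B, fun heq => ?_⟩
      obtain ⟨x, hx⟩ := hdrop i hi
      have hx' := hx
      simp only [hN, Finset.mem_filter] at hx'
      obtain ⟨hxB, y, hy, hxy⟩ := hx'
      have hxB0 : x ∉ B0 := fun h => Finset.disjoint_left.mp hB0N h hx
      have hxK : x ∈ K := hKclosed y (hCK hy) x (Finset.mem_union_left _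
        (Finset.mem_sdiff.mpr ⟨hxB, hxB0⟩)) hxy.symm
      exact Finset.disjoint_left.mp hB'K (heq ▸ hxB) hxK
    refine ⟨⟨s.I, Function.update s.C i K, Function.update s.X i X', comp H Y' u,
      ?_, ?_, ?_, ?_, ?_, comp_conn huY', ?_, ?_, ?_, ?_⟩, ?_⟩
    · intro j hj
      by_cases hji : j = i
      · subst hji
        rw [Function.update_self]
        exact comp_conn hy0V
      · rw [Function.update_of_ne hji]
        exact s.conn j hj
    · intro j hj k hk hjk
      by_cases hji : j = i
      · subst hji
        rw [Function.update_self, Function.update_of_ne hjk.symm]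
        exact hKj k hk hjk.symm
      · by_cases hki : k = i
        · subst hki
          rw [Function.update_self, Function.update_of_ne hji]
          exact (hKj j hj hji).symm
        · rw [Function.update_of_ne hji, Function.update_of_ne hki]
          exact s.disj j hj k hk hjk
    · intro j hj k hk hjk
      by_cases hji : j = i
      · subst hji
        rw [Function.update_self, Function.update_of_ne hjk.symm]
        obtain ⟨x, hx, y, hy, hxy⟩ := s.adj j hj k hk hjk
        exact ⟨x, hCK hx, y, hy, hxy⟩
      · by_cases hki : k = i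
        · subst hki
          rw [Function.update_self, Function.update_of_ne hji]
          obtain ⟨x, hx, y, hy, hxy⟩ := s.adj j hj k hk hjk
          exact ⟨x, hx, y, hCK hy, hxy⟩
        · rw [Function.update_of_ne hji, Function.update_of_ne hki]
          exact s.adj j hj k hk hjk
    · intro j hj
      by_cases hji : j = i
      · subst hji
        rw [Function.update_self, Function.update_self]
        exact Finset.inter_subset_right
      · rw [Function.update_of_ne hji, Function.update_of_ne hji]
        exact s.sub j hj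
    · intro j hj
      by_cases hji : j = i
      · subst hji
        rw [Function.update_self]
        exact (Finset.sum_le_sum_of_subset Finset.inter_subset_left).trans hZr
      · rw [Function.update_of_ne hji]
        exact s.cost j hj
    · intro j hj
      by_cases hji : j = i
      · subst hji
        rw [Function.update_self]
        exact Finset.disjoint_of_subset_right Finset.inter_subset_right hB'K
      · rw [Function.update_of_ne hji]
        exact Finset.disjoint_of_subset_left hB'B (s.disjX j hj)
    · intro a ha b hab hb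
      apply comp_closed ha hab
      intro hbY
      rcases Finset.mem_union.mp hbY with h | h
      · obtain ⟨j, hj, hbj⟩ := Finset.mem_biUnion.mp h
        have hji := Finset.ne_of_mem_erase hj
        have := hb j (Finset.mem_of_mem_erase hj)
        rw [Function.update_of_ne hji] at this
        exact this hbj
      · have := hb i hi
        rw [Function.update_self] at this
        exact this h
    · calc ∑ x, w x < 2 * ∑ x ∈ F, w x := hFw
        _ ≤ 2 * ∑ x ∈ comp H Y' u, w x :=
          Nat.mul_le_mul_left 2 (Finset.sum_le_sum_of_subset (hF.subset_comp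
            (Finset.disjoint_of_subset_right hY'Y hFd) huF))
    · intro j hj
      by_cases hji : j = i
      · subst hji
        rw [Function.update_self]
        exact hB'K
      · rw [Function.update_of_ne hji]
        exact Finset.disjoint_of_subset_left hB'B (s.disjC j hj)
    · simp only
      omega

/-- **Separator theorem.** A graph without a `K₅` model has a set `Z` of cost at most `5 r`, where
`r ^ 2` is at least five times the sum of the squares of the costs, such that every connected
set avoiding `Z` has at most half of the weight. -/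
theorem separator (H : SimpleGraph P) (c w : P → ℕ) (r : ℕ) (hr : 5 * ∑ x, c x ^ 2 ≤ r ^ 2)
    (hK5 : ¬ HasK5Model H) :
    ∃ Z : Finset P, ∑ x ∈ Z, c x ≤ 5 * r ∧
      ∀ F : Finset P, Conn H F → Disjoint F Z → 2 * ∑ x ∈ F, w x ≤ ∑ x, w x := by
  by_contra hcon
  push Not at hcon
  have hno : ∀ n : ℕ, ∀ s : State H c w r, 6 * s.B.card + s.I.card = n → False := by
    intro n
    induction n using Nat.strong_induction_on with
    | _ n ih =>
      intro s hs
      by_cases hI : s.I = univ
      · apply hK5
        refine ⟨s.C, fun i => s.conn i (by simp [hI]),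
          fun i j hij => s.disj i (by simp [hI]) j (by simp [hI]) hij,
          fun i j hij => s.adj i (by simp [hI]) j (by simp [hI]) hij⟩
      · obtain ⟨s', hs'⟩ := s.step hr hcon hI
        exact ih _ (by omega) s' rfl
  obtain ⟨F, hF, hFd, hFw⟩ := hcon ∅ (by simp)
  obtain ⟨u, hu⟩ := hF.1
  refine hno _ ⟨∅, fun _ => ∅, fun _ => ∅, comp H ∅ u, by simp, by simp, by simp, by simp,
    by simp, comp_conn (by simp), by simp, fun a ha b hab _ => comp_closed ha hab (by simp), ?_,
    by simp⟩ rfl
  calc ∑ x, w x < 2 * ∑ x ∈ F, w x := hFw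
    _ ≤ 2 * ∑ x ∈ comp H ∅ u, w x :=
      Nat.mul_le_mul_left 2 (Finset.sum_le_sum_of_subset (hF.subset_comp hFd hu))

end Pool.Agent.helper15.Crossing
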